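import Pool.Agent.R296.RE.Top

set_option autoImplicit false

/-! # Square means of windows against finitely many continuous functions on an almost periodic system -/

namespace Pool.Agent.R296.VC

open Finset Filter Topology
open Pool.Agent.Helper602.MK (ee)
open Pool.Agent.Helper602.MK.N_J1c (c_ee_add c_ee_int c_norm_ee)
open Pool.Agent.Y842.PH Pool.Agent.Y842.CX Pool.Agent.R296.RE

noncomputable section

/-- two point correlations of the shifted weight -/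
lemma Kf_shift {f : ℕ → ℤ} (hb : ∀ n, |f n| ≤ 1) {E : Set ℕ} (hE : Kf f E) (m : ℕ) : Kf (fun n => f (n + m)) E := by
  intro h hh ε hε
  obtain ⟨N₀, h1⟩ := hE h hh (ε / 2) (by positivity)
  obtain ⟨N₁, hN₁⟩ := exists_nat_ge (4 * m / ε)
  refine ⟨N₀ + N₁, fun N hN hNE α => ?_⟩
  have h2 := h1 N (by omega) hNE α
  have h3 : (4 * m / ε : ℝ) ≤ N := hN₁.trans (by exact_mod_cast (by omega : N₁ ≤ N))
  rw [div_le_iff₀ hε] at h3
  set g : ℕ → ℂ := fun k => ((f k : ℂ) * f (k + h)) * ee (α * k) with hg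
  have hg1 : ∀ k, ‖g k‖ ≤ 1 := by
    intro k
    rw [hg]
    simp only [norm_mul, c_norm_ee, mul_one, Complex.norm_intCast]
    exact mul_le_one₀ (by exact_mod_cast hb k) (abs_nonneg _) (by exact_mod_cast hb (k + h))
  have e1 : ee (α * m) * Cr (fun n => f (n + m)) h N α = ∑ k ∈ range N, g (k + m) := by
    unfold Cr
    rw [mul_sum]
    refine sum_congr rfl fun k _ => ?_
    rw [hg]
    have : ee (α * ((k + m : ℕ) : ℝ)) = ee (α * k) * ee (α * m) := by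
      rw [← c_ee_add]
      congr 1
      push_cast
      ring
    show _ = ((f (k + m) : ℂ) * f (k + m + h)) * ee (α * ((k + m : ℕ) : ℝ))
    have e3 : k + m + h = k + h + m := by ring
    rw [this, e3]
    ring
  have e2 : ‖Cr (fun n => f (n + m)) h N α‖ = ‖∑ k ∈ range N, g (k + m)‖ := by
    rw [← e1, norm_mul, c_norm_ee, one_mul]
  rw [e2]
  have h4 := shift_sum g hg1 N m
  have h5 := norm_sub_norm_le (∑ n ∈ range N, g (n + m)) (∑ n ∈ range N, g n)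
  have h6 : ‖∑ n ∈ range N, g n‖ ≤ ε / 2 * N := h2
  linarith

/-- correlations of two shifts against an almost periodic family -/
lemma pair_small {f : ℕ → ℤ} (hb : ∀ n, |f n| ≤ 1) {E : Set ℕ} (hE : Kf f E) {𝓑 : Set (ℕ → ℂ)} (hAP : UAP 𝓑)
    (m m' : ℕ) (hm : m ≠ m') (ε : ℝ) (hε : 0 < ε) : ∃ N₀ : ℕ, ∀ N ≥ N₀, N ∉ E → ∀ b ∈ 𝓑,
      ‖∑ n ∈ range N, ((f (n + m) : ℂ) * f (n + m')) * b n‖ ≤ ε * N := by
  rcases Nat.lt_or_gt_of_ne hm with h | h
  · obtain ⟨k, rfl⟩ := Nat.exists_eq_add_of_lt h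
    obtain ⟨N₀, h1⟩ := ukill (fun n => hb (n + m)) (Kf_shift hb hE m) hAP (k + 1) (by omega) ε hε
    refine ⟨N₀, fun N hN hNE b hbb => ?_⟩
    refine le_trans (le_of_eq ?_) (h1 N hN hNE b hbb)
    congr 1
    refine sum_congr rfl fun n _ => ?_
    rw [show n + (m + k + 1) = n + (k + 1) + m by ring]
  · obtain ⟨k, rfl⟩ := Nat.exists_eq_add_of_lt h
    obtain ⟨N₀, h1⟩ := ukill (fun n => hb (n + m')) (Kf_shift hb hE m') hAP (k + 1) (by omega) ε hε
    refine ⟨N₀, fun N hN hNE b hbb => ?_⟩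
    refine le_trans (le_of_eq ?_) (h1 N hN hNE b hbb)
    congr 1
    refine sum_congr rfl fun n _ => ?_
    rw [show n + (m' + k + 1) = n + (k + 1) + m' by ring]
    ring

lemma tw_pair (f : ℕ → ℤ) (θ : ℝ) (n m m' : ℕ) :
    tw f θ (n + m) * (starRingEnd ℂ) (tw f θ (n + m')) =
      ee (θ * m) * ee (-(θ * m')) * ((f (n + m) : ℂ) * f (n + m')) := by
  unfold tw
  rw [map_mul, map_intCast]
  have h1 : (starRingEnd ℂ) (ee (θ * ((n + m' : ℕ) : ℝ))) = ee (-(θ * ((n + m' : ℕ) : ℝ))) := by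
    unfold ee
    rw [← Complex.exp_conj]
    congr 1
    simp only [map_mul, Complex.conj_ofReal, Complex.conj_I, Complex.ofReal_neg, map_ofNat, map_natCast,
      Complex.ofReal_mul, Complex.ofReal_natCast]
    ring
  rw [h1]
  have h2 : ee (θ * ((n + m : ℕ) : ℝ)) * ee (-(θ * ((n + m' : ℕ) : ℝ))) = ee (θ * m) * ee (-(θ * m')) := by
    rw [← c_ee_add, ← c_ee_add]
    congr 1
    push_cast
    ring
  calc (f (n + m) : ℂ) * ee (θ * ((n + m : ℕ) : ℝ)) * ((f (n + m') : ℂ) * ee (-(θ * ((n + m' : ℕ) : ℝ))))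
      = (ee (θ * ((n + m : ℕ) : ℝ)) * ee (-(θ * ((n + m' : ℕ) : ℝ)))) * ((f (n + m) : ℂ) * f (n + m')) := by ring
    _ = _ := by rw [h2]

variable {Y : Type*} [TopologicalSpace Y]

/-- the square mean of the windows against finitely many continuous functions -/
theorem quad {f : ℕ → ℤ} (hb : ∀ n, |f n| ≤ 1) {E : Set ℕ} (hE : Kf f E) {S : Y → Y} {𝒴 : Set Y}
    (hAP : ∀ c : C(Y, ℂ), UAP {b | ∃ y ∈ 𝒴, b = fun n => c (S^[n] y)}) {ι : Type*} (s : Finset ι)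
    (w : ι → ℕ → C(Y, ℂ)) (H : ℕ) (ε : ℝ) (hε : 0 < ε) : ∃ N₀ : ℕ, ∀ N ≥ N₀, N ∉ E → ∀ y ∈ 𝒴, ∀ θ : ℝ,
      ∑ n ∈ range N, ∑ i ∈ s, ‖∑ m ∈ range H, tw f θ (n + m) * w i m (S^[n] y)‖ ^ 2 ≤
        ∑ n ∈ range N, ∑ i ∈ s, ∑ m ∈ range H, ‖w i m (S^[n] y)‖ ^ 2 + ε * N := by
  classical
  set η : ℝ := ε / ((s.card + 1) * (H + 1) ^ 2) with hη
  have hη0 : 0 < η := by positivity
  have hc : ∀ (i : ι) (m m' : ℕ), ∃ N₀ : ℕ, ∀ N ≥ N₀, N ∉ E → ∀ y ∈ 𝒴, m ≠ m' →
      ‖∑ n ∈ range N, ((f (n + m) : ℂ) * f (n + m')) * (w i m (S^[n] y) * (starRingEnd ℂ) (w i m' (S^[n] y)))‖ ≤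
        η * N := by
    intro i m m'
    by_cases hm : m = m'
    · exact ⟨0, fun N _ _ y _ h => absurd hm h⟩
    obtain ⟨N₀, h1⟩ := pair_small hb hE (hAP (w i m * star (w i m'))) m m' hm η hη0
    refine ⟨N₀, fun N hN hNE y hy _ => ?_⟩
    exact h1 N hN hNE _ ⟨y, hy, rfl⟩
  choose N₀ hN₀ using hc
  refine ⟨∑ i ∈ s, ∑ m ∈ range H, ∑ m' ∈ range H, N₀ i m m', fun N hN hNE y hy θ => ?_⟩
  have hle : ∀ i ∈ s, ∀ m ∈ range H, ∀ m' ∈ range H, N₀ i m m' ≤ N := by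
    intro i hi m hm m' hm'
    refine le_trans ?_ hN
    refine le_trans ?_ (single_le_sum (f := fun i => ∑ m ∈ range H, ∑ m' ∈ range H, N₀ i m m')
      (fun _ _ => Nat.zero_le _) hi)
    refine le_trans ?_ (single_le_sum (f := fun m => ∑ m' ∈ range H, N₀ i m m') (fun _ _ => Nat.zero_le _) hm)
    exact single_le_sum (f := fun m' => N₀ i m m') (fun _ _ => Nat.zero_le _) hm'
  have hN0 : (0 : ℝ) ≤ N := Nat.cast_nonneg N
  -- expansion
  have hexp : ∀ i n, ‖∑ m ∈ range H, tw f θ (n + m) * w i m (S^[n] y)‖ ^ 2 =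
      ∑ m ∈ range H, ∑ m' ∈ range H, ((tw f θ (n + m) * (starRingEnd ℂ) (tw f θ (n + m'))) *
        (w i m (S^[n] y) * (starRingEnd ℂ) (w i m' (S^[n] y)))).re := by
    intro i n
    have h1 : ((‖∑ m ∈ range H, tw f θ (n + m) * w i m (S^[n] y)‖ ^ 2 : ℝ) : ℂ) =
        ∑ m ∈ range H, ∑ m' ∈ range H, (tw f θ (n + m) * (starRingEnd ℂ) (tw f θ (n + m'))) *
        (w i m (S^[n] y) * (starRingEnd ℂ) (w i m' (S^[n] y))) := by
      push_cast
      rw [← Complex.mul_conj', map_sum, sum_mul_sum]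
      refine sum_congr rfl fun m _ => sum_congr rfl fun m' _ => ?_
      rw [map_mul]
      ring
    have h2 := congrArg Complex.re h1
    rw [Complex.ofReal_re] at h2
    rw [h2, Complex.re_sum]
    exact sum_congr rfl fun m _ => Complex.re_sum _ _
  have hone : ∀ i ∈ s, ∀ m ∈ range H, ∀ m' ∈ range H,
      ∑ n ∈ range N, ((tw f θ (n + m) * (starRingEnd ℂ) (tw f θ (n + m'))) *
        (w i m (S^[n] y) * (starRingEnd ℂ) (w i m' (S^[n] y)))).re ≤
      (if m = m' then ∑ n ∈ range N, ‖w i m (S^[n] y)‖ ^ 2 else 0) + η * N := by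
    intro i hi m hm m' hm'
    by_cases h : m = m'
    · subst h
      rw [if_pos rfl]
      have : ∑ n ∈ range N, ((tw f θ (n + m) * (starRingEnd ℂ) (tw f θ (n + m))) *
          (w i m (S^[n] y) * (starRingEnd ℂ) (w i m (S^[n] y)))).re ≤ ∑ n ∈ range N, ‖w i m (S^[n] y)‖ ^ 2 := by
        refine sum_le_sum fun n _ => ?_
        rw [Complex.mul_conj', Complex.mul_conj']
        have e : ((‖tw f θ (n + m)‖ : ℂ) ^ 2 * (‖w i m (S^[n] y)‖ : ℂ) ^ 2) =
            ((‖tw f θ (n + m)‖ ^ 2 * ‖w i m (S^[n] y)‖ ^ 2 : ℝ) : ℂ) := by push_cast; ring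
        rw [e, Complex.ofReal_re]
        have h1 : ‖tw f θ (n + m)‖ ^ 2 ≤ 1 := pow_le_one₀ (norm_nonneg _) (norm_tw hb θ _)
        nlinarith [sq_nonneg ‖w i m (S^[n] y)‖]
      have : 0 ≤ η * N := by positivity
      linarith
    · rw [if_neg h, zero_add]
      have h1 := hN₀ i m m' N (hle i hi m hm m' hm') hNE y hy h
      have e1 : ∑ n ∈ range N, ((tw f θ (n + m) * (starRingEnd ℂ) (tw f θ (n + m'))) *
          (w i m (S^[n] y) * (starRingEnd ℂ) (w i m' (S^[n] y)))).re =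
          (ee (θ * m) * ee (-(θ * m')) *
            ∑ n ∈ range N, ((f (n + m) : ℂ) * f (n + m')) * (w i m (S^[n] y) * (starRingEnd ℂ) (w i m' (S^[n] y)))).re := by
        rw [mul_sum, Complex.re_sum]
        refine sum_congr rfl fun n _ => ?_
        rw [tw_pair, mul_assoc (ee (θ * m) * ee (-(θ * m')))]
      rw [e1]
      refine (Complex.re_le_norm _).trans ?_
      rw [norm_mul, norm_mul, c_norm_ee, c_norm_ee, one_mul, one_mul]
      exact h1
  have hswap : ∑ n ∈ range N, ∑ i ∈ s, ‖∑ m ∈ range H, tw f θ (n + m) * w i m (S^[n] y)‖ ^ 2 =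
      ∑ i ∈ s, ∑ m ∈ range H, ∑ m' ∈ range H, ∑ n ∈ range N, ((tw f θ (n + m) *
        (starRingEnd ℂ) (tw f θ (n + m'))) * (w i m (S^[n] y) * (starRingEnd ℂ) (w i m' (S^[n] y)))).re := by
    simp only [hexp]
    rw [sum_comm]
    refine sum_congr rfl fun i _ => ?_
    rw [sum_comm]
    refine sum_congr rfl fun m _ => ?_
    rw [sum_comm]
  rw [hswap]
  calc ∑ i ∈ s, ∑ m ∈ range H, ∑ m' ∈ range H, ∑ n ∈ range N, ((tw f θ (n + m) *
        (starRingEnd ℂ) (tw f θ (n + m'))) * (w i m (S^[n] y) * (starRingEnd ℂ) (w i m' (S^[n] y)))).re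
      ≤ ∑ i ∈ s, ∑ m ∈ range H, ∑ m' ∈ range H,
        ((if m = m' then ∑ n ∈ range N, ‖w i m (S^[n] y)‖ ^ 2 else 0) + η * N) :=
        sum_le_sum fun i hi => sum_le_sum fun m hm => sum_le_sum fun m' hm' => hone i hi m hm m' hm'
    _ = ∑ i ∈ s, ∑ m ∈ range H, (∑ n ∈ range N, ‖w i m (S^[n] y)‖ ^ 2 + H * (η * N)) := by
        refine sum_congr rfl fun i _ => sum_congr rfl fun m hm => ?_
        rw [sum_add_distrib, sum_const, card_range, nsmul_eq_mul, sum_ite_eq, if_pos hm]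
    _ = ∑ n ∈ range N, ∑ i ∈ s, ∑ m ∈ range H, ‖w i m (S^[n] y)‖ ^ 2 + s.card * (H * (H * (η * N))) := by
        have e : ∀ i ∈ s, ∑ m ∈ range H, (∑ n ∈ range N, ‖w i m (S^[n] y)‖ ^ 2 + H * (η * N)) =
            ∑ n ∈ range N, ∑ m ∈ range H, ‖w i m (S^[n] y)‖ ^ 2 + H * (H * (η * N)) := by
          intro i _
          rw [sum_add_distrib, sum_const, card_range, nsmul_eq_mul, sum_comm]
        rw [sum_congr rfl e, sum_add_distrib, sum_const, nsmul_eq_mul, sum_comm]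
    _ ≤ _ := by
        refine add_le_add le_rfl ?_
        have h1 : (s.card : ℝ) * (H * (H * (η * N))) = s.card * H ^ 2 * η * N := by ring
        rw [h1]
        refine mul_le_mul_of_nonneg_right ?_ hN0
        rw [hη, mul_div_assoc']
        rw [div_le_iff₀ (by positivity)]
        have h2 : (s.card : ℝ) * H ^ 2 ≤ (s.card + 1) * (H + 1) ^ 2 := by
          have : (0 : ℝ) ≤ H := Nat.cast_nonneg H
          have : (0 : ℝ) ≤ s.card := Nat.cast_nonneg _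
          nlinarith [mul_nonneg (Nat.cast_nonneg (α := ℝ) s.card) (Nat.cast_nonneg (α := ℝ) H), sq_nonneg (H : ℝ)]
        nlinarith

end

end Pool.Agent.R296.VC
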