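import Pool.Agent.R296.VC.Null

set_option autoImplicit false

/-! # Contraction cocycles on B-convex spaces and the dual ball -/

namespace Pool.Agent.R296.VC

open Finset Filter Topology

noncomputable section

/-- bounded independence of finitely many pairs of predicates gives coverings of the fibres -/
theorem cov_of_indep {X Y : Type} {T : X → X} {π : X → Y} {S : Y → Y} (hπT : ∀ x, π (T x) = S (π x)) {F : X → ℂ}
    {C : ℝ} (hC : ∀ x, ‖F x‖ ≤ C) {δ : ℝ} (hδ : 0 < δ) {J : Type} [Fintype J] (P Q : J → X → Prop)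
    (hPQ : ∀ j x, ¬ (P j x ∧ Q j x))
    (h1 : ∀ x x', π x = π x' → δ / 2 ≤ ‖F x - F x'‖ → ∃ j, (P j x ∧ Q j x') ∨ (Q j x ∧ P j x'))
    (d : J → ℕ) {G : Set Y} (h2 : ∀ j, ∀ y ∈ G, ∀ m : Fin (d j) → ℕ, ∃ τ : Fin (d j) → Bool, ∀ x, π x = y →
      ∃ i, ¬ (if τ i then P j (T^[m i] x) else Q j (T^[m i] x))) :
    ∃ H : ℕ, 1 ≤ H ∧ ∀ y ∈ G, CovAt T π F H δ (δ * H) y := by
  classical
  have hπn : ∀ n x, π (T^[n] x) = S^[n] (π x) := by
    intro n x
    induction n with
    | zero => rfl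
    | succ n ih => rw [Function.iterate_succ_apply', hπT, ih, Function.iterate_succ_apply']
  set k := Fintype.card J with hk
  set D : ℕ := ∑ q : J, d q with hD
  refine cov_of_sep hC hδ (slow_qp k D) fun y hyG s u p hpy hsep => ?_
  have hex : ∀ a ∈ p, ∀ b ∈ p, a ≠ b → ∃ e : Fin s × J, (P e.2 (T^[u e.1] a) ∧ Q e.2 (T^[u e.1] b)) ∨
      (Q e.2 (T^[u e.1] a) ∧ P e.2 (T^[u e.1] b)) := by
    intro a ha b hb hab
    obtain ⟨i, hi⟩ := hsep a ha b hb hab
    obtain ⟨j, hj⟩ := h1 (T^[u i] a) (T^[u i] b) (by rw [hπn, hπn, hpy a ha, hpy b hb]) hi.le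
    exact ⟨(i, j), hj⟩
  by_cases hone : p.card ≤ 1
  · refine hone.trans ?_
    unfold qp
    exact Nat.one_le_pow _ _ (Nat.succ_pos _)
  · push Not at hone
    obtain ⟨a, ha, b, hb, hab⟩ := one_lt_card.1 hone
    obtain ⟨e, _⟩ := hex a ha b hb hab
    have _ : Nonempty (Fin s × J) := ⟨e⟩
    have h3 := card_of_sep (α := X) (E := Fin s × J) (P := fun x e => P e.2 (T^[u e.1] x))
      (Q := fun x e => Q e.2 (T^[u e.1] x)) (fun z e hz => hPQ e.2 _ hz) D p hex ?_
    · have h4 : Fintype.card (Fin s × J) = s * k := by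
        rw [Fintype.card_prod, Fintype.card_fin]
      rw [h4] at h3
      exact h3
    · intro R hR
      by_contra hcon
      push Not at hcon
      -- some pair has many times
      have h4 : ∃ q : J, d q < (R.filter fun e => e.2 = q).card := by
        by_contra h
        push Not at h
        have h5 : R.card = ∑ q : J, (R.filter fun e => e.2 = q).card :=
          card_eq_sum_card_fiberwise fun e _ => mem_coe.2 (mem_univ _)
        have h6 : R.card ≤ D := by
          rw [h5]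
          exact sum_le_sum fun q _ => h q
        omega
      obtain ⟨q, hq⟩ := h4
      obtain ⟨R', hR', hRc⟩ := exists_subset_card_eq hq.le
      set en := R'.equivFinOfCardEq hRc with hen
      obtain ⟨τ, hτ⟩ := h2 q y hyG fun i => u (en.symm i).1.1
      obtain ⟨z, hz, h5, h6⟩ := hR ((R'.attach.filter fun e => τ (en e) = true).map (Function.Embedding.subtype _)) (by
        intro e he
        obtain ⟨e', _, rfl⟩ := Finset.mem_map.1 he
        exact filter_subset _ _ (hR' e'.2))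
      obtain ⟨i, hi⟩ := hτ z (hpy z hz)
      have hmem : (en.symm i).1 ∈ R := filter_subset _ _ (hR' (en.symm i).2)
      have heq : (en.symm i).1.2 = q := (mem_filter.1 (hR' (en.symm i).2)).2
      by_cases hti : τ i = true
      · rw [if_pos hti] at hi
        refine hi ?_
        have h7 : P (en.symm i).1.2 (T^[u (en.symm i).1.1] z) := h5 (en.symm i).1 (Finset.mem_map.2
          ⟨en.symm i, mem_filter.2 ⟨mem_attach _ _, by
          rw [Equiv.apply_symm_apply]
          exact hti⟩, rfl⟩)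
        rw [heq] at h7
        exact h7
      · rw [if_neg hti] at hi
        refine hi ?_
        have h7 : Q (en.symm i).1.2 (T^[u (en.symm i).1.1] z) := h6 (en.symm i).1 hmem (by
          intro h8
          obtain ⟨e', he', he2⟩ := Finset.mem_map.1 h8
          have h9 : e' = en.symm i := Subtype.ext he2
          rw [h9, mem_filter, Equiv.apply_symm_apply] at he'
          exact hti he'.2)
        rw [heq] at h7
        exact h7

variable {Y B : Type} [NormedAddCommGroup B] [NormedSpace ℂ B]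

/-- B-convexity: `d` vectors of the unit ball have a combination with coefficients `±1` of norm `< κ d` -/
def BConv (B : Type) [NormedAddCommGroup B] [NormedSpace ℂ B] : Prop :=
  ∀ κ : ℝ, 0 < κ → ∃ d : ℕ, ∀ u : Fin d → B, (∀ i, ‖u i‖ ≤ 1) →
    ∃ s : Fin d → ℝ, (∀ i, s i = 1 ∨ s i = -1) ∧ ‖∑ i, (s i : ℂ) • u i‖ < κ * d

/-- the unit ball of the dual, with the topology of pointwise convergence -/
def DBall (B : Type) [NormedAddCommGroup B] [NormedSpace ℂ B] : Set (B → ℂ) :=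
  {ξ | (∀ g h, ξ (g + h) = ξ g + ξ h) ∧ (∀ (c : ℂ) g, ξ (c • g) = c * ξ g) ∧ ∀ g, ‖ξ g‖ ≤ ‖g‖}

lemma DBall_compact : IsCompact (DBall B) := by
  have h1 : IsCompact (Set.univ.pi fun g : B => Metric.closedBall (0 : ℂ) ‖g‖) :=
    isCompact_univ_pi fun g => isCompact_closedBall _ _
  refine h1.of_isClosed_subset ?_ ?_
  · have e : DBall B = (⋂ g, ⋂ h, {ξ : B → ℂ | ξ (g + h) = ξ g + ξ h}) ∩
        ((⋂ c : ℂ, ⋂ g, {ξ : B → ℂ | ξ (c • g) = c * ξ g}) ∩ ⋂ g, {ξ : B → ℂ | ‖ξ g‖ ≤ ‖g‖}) := by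
      ext ξ
      simp only [DBall, Set.mem_inter_iff, Set.mem_iInter]
      rfl
    rw [e]
    refine IsClosed.inter ?_ (IsClosed.inter ?_ ?_)
    · refine isClosed_iInter fun g => isClosed_iInter fun h => isClosed_eq ?_ ?_
      · fun_prop
      · fun_prop
    · refine isClosed_iInter fun c => isClosed_iInter fun g => isClosed_eq ?_ ?_
      · fun_prop
      · fun_prop
    · refine isClosed_iInter fun g => isClosed_le ?_ ?_
      · fun_prop
      · fun_prop
  · rintro ξ ⟨-, -, h⟩ g _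
    rw [mem_closedBall_zero_iff]
    exact h g

instance : CompactSpace (DBall B) := isCompact_iff_compactSpace.1 DBall_compact

/-- the products `V_n(y) = U(y) U(S y) ⋯ U(S^(n-1) y)` -/
def pV (S : Y → Y) (U : Y → B →ₗ[ℂ] B) : ℕ → Y → B →ₗ[ℂ] B
  | 0, _ => LinearMap.id
  | n + 1, y => (pV S U n y).comp (U (S^[n] y))

lemma pV_norm {S : Y → Y} {U : Y → B →ₗ[ℂ] B} (hU : ∀ y g, ‖U y g‖ ≤ ‖g‖) (n : ℕ) (y : Y) (g : B) :
    ‖pV S U n y g‖ ≤ ‖g‖ := by
  induction n generalizing g with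
  | zero => exact le_rfl
  | succ n ih => exact (ih _).trans (hU _ _)

/-- the action on the dual ball -/
def dstep (S : Y → Y) (U : Y → B →ₗ[ℂ] B) (hU : ∀ y g, ‖U y g‖ ≤ ‖g‖) (x : Y × DBall B) : Y × DBall B :=
  (S x.1, ⟨fun g => x.2.1 (U x.1 g), fun g h => by
    show x.2.1 (U x.1 (g + h)) = x.2.1 (U x.1 g) + x.2.1 (U x.1 h)
    rw [map_add, x.2.2.1], fun c g => by
    show x.2.1 (U x.1 (c • g)) = c * x.2.1 (U x.1 g)
    rw [map_smul, x.2.2.2.1], fun g => (x.2.2.2.2 _).trans (hU _ _)⟩)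

lemma dstep_iter (S : Y → Y) (U : Y → B →ₗ[ℂ] B) (hU : ∀ y g, ‖U y g‖ ≤ ‖g‖) (n : ℕ) (x : Y × DBall B) :
    ((dstep S U hU)^[n] x).1 = S^[n] x.1 ∧ ∀ g, ((dstep S U hU)^[n] x).2.1 g = x.2.1 (pV S U n x.1 g) := by
  induction n with
  | zero => exact ⟨rfl, fun g => rfl⟩
  | succ n ih =>
    rw [Function.iterate_succ_apply', Function.iterate_succ_apply']
    refine ⟨congrArg S ih.1, fun g => ?_⟩
    show ((dstep S U hU)^[n] x).2.1 (U ((dstep S U hU)^[n] x).1 g) = _
    rw [ih.1, ih.2]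
    rfl

lemma dstep_cont [TopologicalSpace Y] {S : Y → Y} (hS : Continuous S) {U : Y → B →ₗ[ℂ] B}
    (hU : ∀ y g, ‖U y g‖ ≤ ‖g‖) (hUc : ∀ g, Continuous fun y => U y g) : Continuous (dstep S U hU) := by
  refine (hS.comp continuous_fst).prodMk (Continuous.subtype_mk (continuous_pi fun g => ?_) _)
  rw [continuous_iff_continuousAt]
  intro x₀
  have e1 : (fun x : Y × DBall B => x.2.1 (U x.1 g)) =
      fun x => x.2.1 (U x₀.1 g) + x.2.1 (U x.1 g - U x₀.1 g) := by
    funext x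
    rw [← x.2.2.1, add_sub_cancel]
  show ContinuousAt (fun x : Y × DBall B => x.2.1 (U x.1 g)) x₀
  rw [e1]
  refine ContinuousAt.add ?_ ?_
  · exact ((continuous_apply (U x₀.1 g)).comp (continuous_subtype_val.comp continuous_snd)).continuousAt
  · have e2 : x₀.2.1 (U x₀.1 g - U x₀.1 g) = 0 := by
      have h := x₀.2.2.2.2 (U x₀.1 g - U x₀.1 g)
      rw [sub_self, norm_zero] at h
      rw [sub_self]
      exact norm_le_zero_iff.1 h
    show Tendsto (fun x : Y × DBall B => x.2.1 (U x.1 g - U x₀.1 g)) (𝓝 x₀) (𝓝 (x₀.2.1 (U x₀.1 g - U x₀.1 g)))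
    rw [e2]
    refine squeeze_zero_norm (a := fun x : Y × DBall B => ‖U x.1 g - U x₀.1 g‖) (fun x => x.2.2.2.2 _) ?_
    have h3 : Continuous fun x : Y × DBall B => ‖U x.1 g - U x₀.1 g‖ :=
      (((hUc g).comp continuous_fst).sub continuous_const).norm
    have h4 := h3.tendsto x₀
    rw [sub_self, norm_zero] at h4
    exact h4

/-- coverings of the fibres for the action on the dual ball -/
theorem cov_ban [TopologicalSpace Y] [CompactSpace Y] (hB : BConv B) (S : Y → Y) (U : Y → B →ₗ[ℂ] B)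
    (hU : ∀ y g, ‖U y g‖ ≤ ‖g‖) (F : C(Y × DBall B, ℂ)) (δ : ℝ) (hδ : 0 < δ) :
    ∃ H : ℕ, 1 ≤ H ∧ ∀ y, CovAt (dstep S U hU) Prod.fst F H δ (δ * H) y := by
  classical
  obtain ⟨C, hC⟩ : ∃ C, ∀ x, ‖F x‖ ≤ C := ⟨‖F‖, fun x => ContinuousMap.norm_coe_le_norm F x⟩
  set K : Set (Y × DBall B × DBall B) := {q | δ / 2 ≤ ‖F (q.1, q.2.1) - F (q.1, q.2.2)‖} with hK
  have hKc : IsCompact K := by
    refine IsClosed.isCompact (isClosed_le continuous_const ?_)
    refine Continuous.norm (Continuous.sub (F.continuous.comp ?_) (F.continuous.comp ?_))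
    · fun_prop
    · fun_prop
  have hdat : ∀ q : Y × DBall B × DBall B, ∃ (g : B) (α β : ℝ), α < β ∧
      (q ∈ K → (q.2.2.1 g).re < α ∧ β < (q.2.1.1 g).re) := by
    intro q
    by_cases hq : q ∈ K
    · have hne : q.2.1 ≠ q.2.2 := by
        intro h
        have h2 : δ / 2 ≤ ‖F (q.1, q.2.1) - F (q.1, q.2.2)‖ := hq
        rw [h, sub_self, norm_zero] at h2
        linarith
      have hex : ∃ g, q.2.1.1 g ≠ q.2.2.1 g := by
        by_contra h
        push Not at h
        exact hne (Subtype.ext (funext h))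
      obtain ⟨g, hg⟩ := hex
      set c : ℂ := (starRingEnd ℂ) (q.2.1.1 g - q.2.2.1 g) with hc
      have e1 : (q.2.1.1 (c • g)).re - (q.2.2.1 (c • g)).re = ‖q.2.1.1 g - q.2.2.1 g‖ ^ 2 := by
        rw [q.2.1.2.2.1, q.2.2.2.2.1, ← Complex.sub_re, ← mul_sub, hc, Complex.conj_mul']
        exact_mod_cast Complex.ofReal_re _
      have e2 : 0 < ‖q.2.1.1 g - q.2.2.1 g‖ ^ 2 := by
        have : 0 < ‖q.2.1.1 g - q.2.2.1 g‖ := norm_pos_iff.2 (sub_ne_zero.2 hg)
        positivity
      refine ⟨c • g, (2 * (q.2.2.1 (c • g)).re + (q.2.1.1 (c • g)).re) / 3,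
        ((q.2.2.1 (c • g)).re + 2 * (q.2.1.1 (c • g)).re) / 3, ?_, fun _ => ⟨?_, ?_⟩⟩
      · linarith
      · linarith
      · linarith
    · exact ⟨0, 0, 1, one_pos, fun h => absurd h hq⟩
  choose g α β hαβ hg using hdat
  set W : (Y × DBall B × DBall B) → Set (Y × DBall B × DBall B) := fun q =>
    {q' | β q < (q'.2.1.1 (g q)).re} ∩ {q' | (q'.2.2.1 (g q)).re < α q} with hW
  have hev : ∀ w : B, Continuous fun ξ : DBall B => (ξ.1 w).re := fun w =>
    Complex.continuous_re.comp ((continuous_apply w).comp continuous_subtype_val)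
  have hWo : ∀ q, IsOpen (W q) := by
    intro q
    exact IsOpen.inter (isOpen_lt continuous_const ((hev _).comp (continuous_fst.comp continuous_snd)))
      (isOpen_lt ((hev _).comp (continuous_snd.comp continuous_snd)) continuous_const)
  obtain ⟨t, ht⟩ := hKc.elim_finite_subcover_image (b := K) (c := W) (fun q _ => hWo q)
    (fun q hq => Set.mem_iUnion₂.2 ⟨q, hq, (hg q hq).2, (hg q hq).1⟩)
  obtain ⟨-, htf, ht2⟩ := ht
  have _ : Fintype t := htf.fintype
  have hd : ∀ q : t, ∃ d : ℕ, ∀ u : Fin d → B, (∀ i, ‖u i‖ ≤ 1) →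
    ∃ s : Fin d → ℝ, (∀ i, s i = 1 ∨ s i = -1) ∧
      ‖∑ i, (s i : ℂ) • u i‖ < ((β q - α q) / (2 * (‖g q‖ + 1))) * d := by
    intro q
    have h1 := hαβ q
    exact hB _ (div_pos (by linarith) (by positivity))
  choose d hd using hd
  obtain ⟨H, hH, hcov⟩ := cov_of_indep (T := dstep S U hU) (π := (Prod.fst : Y × DBall B → Y)) (S := S)
    (fun _ => rfl) hC hδ (J := t) (fun j x => β j ≤ (x.2.1 (g j)).re) (fun j x => (x.2.1 (g j)).re ≤ α j)
    (fun j x h => by
      have := hαβ j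
      linarith [h.1, h.2]) (by
    rintro ⟨y, ξ⟩ ⟨y', ξ'⟩ (rfl : y = y') h
    have h1 : (y, ξ, ξ') ∈ K := h
    obtain ⟨q, hq, h2, h3⟩ := Set.mem_iUnion₂.1 (ht2 h1)
    exact ⟨⟨q, hq⟩, Or.inl ⟨le_of_lt h2, le_of_lt h3⟩⟩) d (G := Set.univ) (by
    intro j y _ m
    by_contra hcon
    push Not at hcon
    set r : ℝ := ‖g j‖ + 1 with hr
    have hr0 : 0 < r := by positivity
    set v : Fin (d j) → B := fun i => pV S U (m i) y (g j) with hv
    obtain ⟨s, hs1, hs2⟩ := hd j (fun i => ((r⁻¹ : ℝ) : ℂ) • v i) (fun i => by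
      rw [norm_smul, Complex.norm_real, norm_inv, Real.norm_of_nonneg hr0.le]
      have h1 : ‖v i‖ ≤ ‖g j‖ := pV_norm hU _ _ _
      rw [inv_mul_le_iff₀ hr0]
      linarith)
    obtain ⟨x, hx, hx2⟩ := hcon fun i => decide (s i = 1)
    obtain ⟨x', hx', hx'2⟩ := hcon fun i => !decide (s i = 1)
    set z : B := ∑ i, (s i : ℂ) • v i with hz
    have hz1 : ‖∑ i, (s i : ℂ) • (((r⁻¹ : ℝ) : ℂ) • v i)‖ = r⁻¹ * ‖z‖ := by
      have : ∑ i, (s i : ℂ) • (((r⁻¹ : ℝ) : ℂ) • v i) = ((r⁻¹ : ℝ) : ℂ) • z := by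
        rw [hz, smul_sum]
        exact sum_congr rfl fun i _ => smul_comm _ _ _
      rw [this, norm_smul, Complex.norm_real, norm_inv, Real.norm_of_nonneg hr0.le]
    have hadd : ∀ ξ : DBall B, ξ.1 z = ∑ i, (s i : ℂ) * ξ.1 (v i) := by
      intro ξ
      have h0 : ξ.1 0 = 0 := by
        have := ξ.2.2.2 0
        rw [norm_zero] at this
        exact norm_le_zero_iff.1 this
      have h1 : ∀ t : Finset (Fin (d j)), ξ.1 (∑ i ∈ t, (s i : ℂ) • v i) = ∑ i ∈ t, (s i : ℂ) * ξ.1 (v i) := by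
        intro t
        induction t using Finset.induction_on with
        | empty => rw [sum_empty, sum_empty, h0]
        | insert a t ha ih => rw [sum_insert ha, sum_insert ha, ξ.2.1, ξ.2.2.1, ih]
      exact h1 univ
    have hre : ∀ ξ : DBall B, (ξ.1 z).re = ∑ i, s i * (ξ.1 (v i)).re := by
      intro ξ
      rw [hadd, Complex.re_sum]
      exact sum_congr rfl fun i _ => Complex.re_ofReal_mul _ _
    have hT : ∀ (x : Y × DBall B) (hx : x.1 = y) (i : Fin (d j)),
        ((dstep S U hU)^[m i] x).2.1 (g j) = x.2.1 (v i) := by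
      intro x hx i
      rw [(dstep_iter S U hU (m i) x).2, hx]
    have hlow : (d j : ℝ) * (β j - α j) ≤ (x.2.1 z).re - (x'.2.1 z).re := by
      rw [hre, hre, ← sum_sub_distrib]
      have h1 : ∑ _i : Fin (d j), (β j - α j) = (d j : ℝ) * (β j - α j) := by
        rw [sum_const, card_univ, Fintype.card_fin, nsmul_eq_mul]
      rw [← h1]
      refine sum_le_sum fun i _ => ?_
      have a1 := hx2 i
      have a2 := hx'2 i
      rw [hT x hx, ] at a1
      rw [hT x' hx'] at a2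
      rcases hs1 i with h | h
      · rw [h] at a1 a2 ⊢
        simp only [decide_true, Bool.not_true, if_true, Bool.false_eq_true, if_false] at a1 a2
        linarith
      · rw [h] at a1 a2 ⊢
        have hne : ¬ ((-1 : ℝ) = 1) := by norm_num
        simp only [hne, decide_false, Bool.not_false, if_true, Bool.false_eq_true, if_false] at a1 a2
        linarith
    have hup : (x.2.1 z).re - (x'.2.1 z).re ≤ 2 * ‖z‖ := by
      have b1 := (Complex.re_le_norm _).trans (x.2.2.2.2 z)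
      have b2 := ((Complex.abs_re_le_norm _).trans (x'.2.2.2.2 z))
      have b3 := neg_abs_le (x'.2.1 z).re
      linarith
    rw [hz1] at hs2
    have hs3 : ‖z‖ < r * ((β j - α j) / (2 * r) * d j) := by
      rwa [inv_mul_lt_iff₀ hr0] at hs2
    have hs4 : r * ((β j - α j) / (2 * r) * d j) = (β j - α j) * d j / 2 := by
      field_simp
    rw [hs4] at hs3
    linarith)
  exact ⟨H, hH, fun y => hcov y (Set.mem_univ y)⟩

/-- inner product spaces are B-convex -/
theorem BConv_inner (B : Type) [NormedAddCommGroup B] [InnerProductSpace ℂ B] : BConv B := by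
  have h1 : ∀ (d : ℕ) (u : Fin d → B), (∀ i, ‖u i‖ ≤ 1) →
      ∃ s : Fin d → ℝ, (∀ i, s i = 1 ∨ s i = -1) ∧ ‖∑ i, (s i : ℂ) • u i‖ ^ 2 ≤ d := by
    intro d
    induction d with
    | zero =>
      intro u _
      exact ⟨fun _ => 1, fun _ => Or.inl rfl, by simp⟩
    | succ d ih =>
      intro u hu
      obtain ⟨s, hs1, hs2⟩ := ih (fun i => u i.castSucc) fun i => hu _
      set w := ∑ i : Fin d, (s i : ℂ) • u i.castSucc with hw
      have h2 := parallelogram_law_with_norm ℂ w (u (Fin.last d))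
      have h3 : ‖u (Fin.last d)‖ ^ 2 ≤ 1 := pow_le_one₀ (norm_nonneg _) (hu _)
      have h4 : ∃ c : ℝ, (c = 1 ∨ c = -1) ∧ ‖w + (c : ℂ) • u (Fin.last d)‖ ^ 2 ≤ d + 1 := by
        by_contra hcon
        push Not at hcon
        have h5 := hcon 1 (Or.inl rfl)
        have h6 := hcon (-1) (Or.inr rfl)
        rw [Complex.ofReal_one, one_smul] at h5
        rw [Complex.ofReal_neg, Complex.ofReal_one, neg_smul, one_smul, ← sub_eq_add_neg] at h6
        nlinarith
      obtain ⟨c, hc1, hc2⟩ := h4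
      refine ⟨Fin.snoc s c, fun i => ?_, ?_⟩
      · refine Fin.lastCases ?_ (fun i => ?_) i
        · rw [Fin.snoc_last]
          exact hc1
        · rw [Fin.snoc_castSucc]
          exact hs1 i
      · rw [Fin.sum_univ_castSucc]
        simp only [Fin.snoc_castSucc, Fin.snoc_last]
        push_cast
        exact hc2
  intro κ hκ
  obtain ⟨d, hd⟩ := exists_nat_gt (1 / κ ^ 2)
  refine ⟨d, fun u hu => ?_⟩
  obtain ⟨s, hs1, hs2⟩ := h1 d u hu
  refine ⟨s, hs1, ?_⟩
  have hd0 : (0 : ℝ) < d := lt_of_le_of_lt (by positivity) hd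
  refine lt_of_pow_lt_pow_left₀ 2 (by positivity) (hs2.trans_lt ?_)
  rw [div_lt_iff₀ (by positivity)] at hd
  nlinarith

end

end Pool.Agent.R296.VC
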