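import Pool.Agent.R296.VC.Graph

set_option autoImplicit false

/-! # The circle is a finite graph -/

namespace Pool.Agent.R296.VC

open Finset Filter Topology

noncomputable section

lemma locconn_circle : LocallyConnectedSpace (AddCircle (1 : ℝ)) := by
  have h : LocallyPathConnectedSpace (AddCircle (1 : ℝ)) :=
    Topology.IsQuotientMap.locallyPathConnectedSpace (f := fun x : ℝ => (x : AddCircle (1 : ℝ)))
      isQuotientMap_quotient_mk'
  infer_instance

lemma edges_circle : Edges (AddCircle (1 : ℝ)) := by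
  refine ⟨1, fun _ x => (x : AddCircle (1 : ℝ)), fun _ => AddCircle.continuous_mk' 1, fun _ => ?_,
    fun _ a b _ _ => ?_, ?_⟩
  · intro x hx y hy hxy
    have h1 : (x : AddCircle (1 : ℝ)) = (y : AddCircle (1 : ℝ)) := hxy
    rw [QuotientAddGroup.eq] at h1
    obtain ⟨n, hn⟩ := AddSubgroup.mem_zmultiples_iff.1 h1
    have h2 : (n : ℝ) = - x + y := by
      rw [← hn]
      simp
    have h3 : (n : ℝ) < 1 := by
      rw [h2]
      linarith [hx.1, hy.2]
    have h4 : (-1 : ℝ) < n := by
      rw [h2]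
      linarith [hx.2, hy.1]
    have h5 : n = 0 := by
      have h6 : n < 1 := by exact_mod_cast h3
      have h7 : -1 < n := by exact_mod_cast h4
      omega
    rw [h5, Int.cast_zero] at h2
    linarith
  · exact QuotientAddGroup.isOpenMap_coe _ isOpen_Ioo
  · refine Set.Finite.subset (Set.finite_singleton 0) ?_
    intro z hz
    rw [Set.mem_singleton_iff]
    by_contra hne
    refine hz ?_
    obtain ⟨x, hx, rfl⟩ : ∃ x ∈ Set.Ico (0 : ℝ) (0 + 1), (x : AddCircle (1 : ℝ)) = z := by
      have := AddCircle.coe_image_Ico_eq (1 : ℝ) 0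
      have h1 : z ∈ ((fun x : ℝ => (x : AddCircle (1 : ℝ))) '' Set.Ico (0 : ℝ) (0 + 1)) := by
        rw [show ((fun x : ℝ => (x : AddCircle (1 : ℝ))) '' Set.Ico (0 : ℝ) (0 + 1)) = Set.univ from this]
        exact Set.mem_univ z
      obtain ⟨x, hx, h2⟩ := h1
      exact ⟨x, hx, h2⟩
    refine Set.mem_iUnion.2 ⟨0, x, ⟨lt_of_le_of_ne hx.1 ?_, by linarith [hx.2]⟩, rfl⟩
    intro h
    refine hne ?_
    rw [← h]
    rfl

lemma pre_of_inj {Z : Type} [TopologicalSpace Z] [CompactSpace Z] [T2Space Z] {f : Z → Z} (hf : Continuous f)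
    (hb : Function.Bijective f) (D : Set Z) (hD : IsPreconnected D) : IsPreconnected (f ⁻¹' D) :=
  hD.preimage_of_isClosedMap hb.1 hf.isClosedMap (fun x _ => hb.2 x)

end

end Pool.Agent.R296.VC
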