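import Pool.Agent.R296.VC.Fib
import Pool.Agent.R296.RE.Ext

set_option autoImplicit false

/-! # The three conclusions for extensions of almost periodic systems with small fibres -/

namespace Pool.Agent.R296.VC

open Finset Filter Topology
open Pool.Agent.Helper602.MK (ee)
open Pool.Agent.Y842.PH Pool.Agent.Y842.CX Pool.Agent.R296.RE

noncomputable section

variable {X Y : Type} [TopologicalSpace X] [CompactSpace X] [TopologicalSpace Y] [CompactSpace Y] [T2Space Y]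

theorem three_of_cov {f : ℕ → ℤ} (hb : ∀ n, |f n| ≤ 1) {E : Set ℕ} (hE0 : Pool.Agent.R296.SM.LDZ E) (hE : Kf f E)
    {S : Y → Y} {𝒴 : Set Y}
    (hAP : ∀ c : C(Y, ℂ), UAP {b | ∃ y ∈ 𝒴, b = fun n => c (S^[n] y)}) {T : X → X} (hT : Continuous T) {π : X → Y}
    (hπ : Continuous π) (hπT : ∀ x, π (T x) = S (π x)) (F : C(X, ℂ))
    (hcov : ∀ δ : ℝ, 0 < δ → ∃ H : ℕ, 1 ≤ H ∧ ∃ G : Set Y, IsClosed G ∧ Mostly S 𝒴 G δ ∧
      ∀ y ∈ G, CovAt T π F H δ (δ * H) y) (ε : ℝ) (hε : 0 < ε) :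
    (∃ N₀ : ℕ, ∀ N ≥ N₀, N ∉ E → ∀ x, π x ∈ 𝒴 → ∀ θ : ℝ, ‖∑ n ∈ Icc 1 N, tw f θ n * F (T^[n] x)‖ ≤ ε * N) ∧
    (∃ H₀ : ℕ, ∀ H ≥ H₀, ∃ N₀ : ℕ, ∀ N ≥ N₀, N ∉ E → ∀ y ∈ 𝒴, ∀ x : ℕ → X, (∀ n, π (x n) = S^[n] y) → ∀ θ : ℝ,
      ∑ n ∈ range N, ‖∑ m ∈ range H, tw f θ (n + m) * F (T^[m] (x n))‖ ≤ ε * (H * N)) ∧
    ∃ N₀ : ℕ, ∀ N ≥ N₀, ∀ x, π x ∈ 𝒴 → ∀ θ : ℝ,
      ‖∑ n ∈ Icc 1 N, tw f θ n * F (T^[n] x) / n‖ ≤ ε * Real.log N := by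
  have hπn : ∀ n x, π (T^[n] x) = S^[n] (π x) := by
    intro n x
    induction n with
    | zero => rfl
    | succ n ih => rw [Function.iterate_succ_apply', hπT, ih, Function.iterate_succ_apply']
  have hF1 : ∀ θ n z, ‖tw f θ n * F z‖ ≤ ‖F‖ := by
    intro θ n z
    rw [norm_mul]
    calc ‖tw f θ n‖ * ‖F z‖ ≤ 1 * ‖F‖ :=
          mul_le_mul (norm_tw hb θ n) (ContinuousMap.norm_coe_le_norm F z) (norm_nonneg _) zero_le_one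
      _ = ‖F‖ := one_mul _
  have hfib := fib_of_cov hb hE hAP hT hπ hπT F.continuous (fun x => ContinuousMap.norm_coe_le_norm F x) hcov
  obtain ⟨⟨N₁, h1⟩, -, ⟨N₃, h3⟩⟩ := three (B := ℂ) hE0
    (𝓑 := {b | ∃ x, π x ∈ 𝒴 ∧ ∃ θ : ℝ, b = fun n => tw f θ n * F (T^[n] x)}) (C := ‖F‖) (by
      rintro _ ⟨x, -, θ, rfl⟩ n
      exact hF1 θ n _) (by
      intro ε hε
      obtain ⟨H₀, h2⟩ := hfib ε hε
      refine ⟨H₀, fun H hH => ?_⟩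
      obtain ⟨N₀, h4⟩ := h2 H hH
      refine ⟨N₀, fun N hN hNE => ?_⟩
      rintro _ ⟨x, hx, θ, rfl⟩
      refine le_trans (le_of_eq ?_) (h4 N hN hNE (π x) hx (fun n => T^[n] x) (fun n => hπn n x) θ)
      refine sum_congr rfl fun n _ => ?_
      congr 1
      refine sum_congr rfl fun m _ => ?_
      rw [← Function.iterate_add_apply, add_comm m n]) ε hε
  refine ⟨⟨N₁, fun N hN hNE x hx θ => h1 N hN hNE _ ⟨x, hx, θ, rfl⟩⟩, hfib ε hε, ⟨N₃, fun N hN x hx θ => ?_⟩⟩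
  refine le_trans (le_of_eq ?_) (h3 N hN _ ⟨x, hx, θ, rfl⟩)
  congr 1
  refine sum_congr rfl fun n _ => ?_
  rw [smul_eq_mul, one_div, div_eq_mul_inv, mul_comm]

end

end Pool.Agent.R296.VC
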