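import Pool.Agent.R296.VC.Win

set_option autoImplicit false

/-! # Partitions of unity: from coverings of the fibres to finitely many continuous functions -/

namespace Pool.Agent.R296.VC

open Finset Filter Topology
open Pool.Agent.Helper602.MK (ee)
open Pool.Agent.Y842.PH Pool.Agent.Y842.CX Pool.Agent.R296.RE

noncomputable section

/-- the fibre over `y` is covered by `K` balls of radius `δ` in the mean along the orbits of length `H` -/
def CovAt {X Y : Type*} (T : X → X) (π : X → Y) (F : X → ℂ) (H : ℕ) (δ K : ℝ) (y : Y) : Prop :=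
  ∃ A : Finset X, (A.card : ℝ) ≤ K ∧ ∀ x, π x = y →
    ∃ a ∈ A, ∑ m ∈ range H, ‖F (T^[m] x) - F (T^[m] a)‖ ≤ δ * H

variable {X Y : Type} [TopologicalSpace X] [CompactSpace X] [TopologicalSpace Y] [CompactSpace Y] [T2Space Y]

theorem approx_of_cov {T : X → X} (hT : Continuous T) {π : X → Y} (hπ : Continuous π) {F : X → ℂ}
    (hF : Continuous F) {C : ℝ} (hC : ∀ x, ‖F x‖ ≤ C) (H : ℕ) (hH : 1 ≤ H) {δ K t : ℝ} (hδ : 0 < δ) (hK0 : 0 ≤ K)
    (hK : K * C ^ 2 ≤ t ^ 2 * H) {G : Set Y} (hG : IsClosed G) (hcov : ∀ y ∈ G, CovAt T π F H δ K y) :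
    ∃ (ι : Type) (s : Finset ι) (w : ι → ℕ → C(Y, ℂ)),
      (∀ y, ∑ i ∈ s, ∑ m ∈ range H, ‖w i m y‖ ^ 2 ≤ t ^ 2 * H) ∧
      ∀ x, π x ∈ G → ∃ c : ι → ℂ, ∑ i ∈ s, ‖c i‖ ^ 2 ≤ H ∧
        ∑ m ∈ range H, ‖F (T^[m] x) - ∑ i ∈ s, c i * w i m (π x)‖ ≤ 2 * δ * H := by
  classical
  have hH0 : (0 : ℝ) < H := by exact_mod_cast hH
  have hcov' : ∀ y, ∃ A : Finset X, y ∈ G → (A.card : ℝ) ≤ K ∧ ∀ x, π x = y →
      ∃ a ∈ A, ∑ m ∈ range H, ‖F (T^[m] x) - F (T^[m] a)‖ ≤ δ * H := by
    intro y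
    by_cases hy : y ∈ G
    · obtain ⟨A, hA⟩ := hcov y hy
      exact ⟨A, fun _ => hA⟩
    · exact ⟨∅, fun h => absurd h hy⟩
  choose A hA using hcov'
  set B : Y → Set X := fun y => {x | ∀ a ∈ A y, 2 * δ * H ≤ ∑ m ∈ range H, ‖F (T^[m] x) - F (T^[m] a)‖} with hB
  have hBc : ∀ y, IsClosed (B y) := by
    intro y
    have : B y = ⋂ a ∈ A y, {x | 2 * δ * H ≤ ∑ m ∈ range H, ‖F (T^[m] x) - F (T^[m] a)‖} := by
      ext x
      simp [hB]
    rw [this]
    refine isClosed_biInter fun a _ => isClosed_le continuous_const ?_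
    exact continuous_finsetSum _ fun m _ => ((hF.comp (hT.iterate m)).sub continuous_const).norm
  set U : Y → Set Y := fun y => (π '' B y)ᶜ with hU
  have hUo : ∀ y, IsOpen (U y) := fun y => ((hBc y).isCompact.image hπ).isClosed.isOpen_compl
  have hUy : ∀ y ∈ G, y ∈ U y := by
    rintro y hy ⟨x, hx, hxy⟩
    obtain ⟨a, ha, h1⟩ := (hA y hy).2 x hxy
    have h2 := hx a ha
    nlinarith
  obtain ⟨t'', htG, ht''f, ht''⟩ := hG.isCompact.elim_finite_subcover_image (b := G) (c := U) (fun y _ => hUo y)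
    (fun y hy => Set.mem_iUnion₂.2 ⟨y, hy, hUy y hy⟩)
  set t' : Finset Y := ht''f.toFinset with ht'
  have htG' : ∀ i : {y // y ∈ t'}, (i : Y) ∈ G := fun i => htG (ht''f.mem_toFinset.1 i.2)
  have hcovU : G ⊆ ⋃ i : {y // y ∈ t'}, U i := by
    intro y hy
    obtain ⟨i, hi, hyi⟩ := Set.mem_iUnion₂.1 (ht'' hy)
    exact Set.mem_iUnion.2 ⟨⟨i, ht''f.mem_toFinset.2 hi⟩, hyi⟩
  obtain ⟨p, hp⟩ := PartitionOfUnity.exists_isSubordinate (s := G) hG
    (fun i : {y // y ∈ t'} => U i) (fun i => hUo i) hcovU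
  have hp0 : ∀ i y, 0 ≤ p i y := fun i y => p.nonneg i y
  have hp1 : ∀ y ∈ G, ∑ i : {y // y ∈ t'}, p i y = 1 := by
    intro y hy
    have := p.sum_eq_one hy
    rwa [finsum_eq_sum_of_fintype] at this
  have hp2 : ∀ y, ∑ i : {y // y ∈ t'}, p i y ≤ 1 := by
    intro y
    have := p.sum_le_one y
    rwa [finsum_eq_sum_of_fintype] at this
  have hpU : ∀ i y, p i y ≠ 0 → y ∈ U i := fun i y h => hp i (subset_tsupport _ h)
  refine ⟨Σ _ : {y // y ∈ t'}, X, (Finset.univ : Finset {y // y ∈ t'}).sigma fun i => A i,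
    fun q m => ⟨fun y => (Real.sqrt (p q.1 y / H) : ℂ) * F (T^[m] q.2), by fun_prop⟩, ?_, ?_⟩
  · intro y
    rw [sum_sigma]
    have h1 : ∀ i : {y // y ∈ t'}, ∑ a ∈ A i, ∑ m ∈ range H,
        ‖((Real.sqrt (p i y / H) : ℂ) * F (T^[m] a))‖ ^ 2 ≤ p i y * (K * C ^ 2) := by
      intro i
      have h2 : ∀ a ∈ A i, ∑ m ∈ range H, ‖((Real.sqrt (p i y / H) : ℂ) * F (T^[m] a))‖ ^ 2 ≤ p i y * C ^ 2 := by
        intro a _
        calc _ ≤ ∑ _m ∈ range H, p i y / H * C ^ 2 := by
              refine sum_le_sum fun m _ => ?_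
              rw [norm_mul, mul_pow, Complex.norm_real, Real.norm_of_nonneg (Real.sqrt_nonneg _),
                Real.sq_sqrt (div_nonneg (hp0 i y) hH0.le)]
              refine mul_le_mul_of_nonneg_left ?_ (div_nonneg (hp0 i y) hH0.le)
              exact pow_le_pow_left₀ (norm_nonneg _) (hC _) 2
          _ = _ := by
              rw [sum_const, card_range, nsmul_eq_mul]
              field_simp
      refine (sum_le_sum h2).trans ?_
      rw [sum_const, nsmul_eq_mul]
      have h3 := (hA i (htG' i)).1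
      have h4 : 0 ≤ p i y * C ^ 2 := mul_nonneg (hp0 i y) (sq_nonneg _)
      nlinarith
    refine (sum_le_sum fun i _ => h1 i).trans ?_
    rw [← sum_mul]
    have h5 : 0 ≤ K * C ^ 2 := mul_nonneg hK0 (sq_nonneg _)
    calc (∑ i : {y // y ∈ t'}, p i y) * (K * C ^ 2) ≤ 1 * (K * C ^ 2) := mul_le_mul_of_nonneg_right (hp2 y) h5
      _ ≤ _ := by
        rw [one_mul]
        exact hK
  · intro x hxG
    have hsel : ∀ i : {y // y ∈ t'}, ∃ a : X, p i (π x) ≠ 0 → a ∈ A i ∧
        ∑ m ∈ range H, ‖F (T^[m] x) - F (T^[m] a)‖ ≤ 2 * δ * H := by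
      intro i
      by_cases h : p i (π x) = 0
      · exact ⟨x, fun h' => absurd h h'⟩
      · have h1 := hpU i _ h
        have h2 : x ∉ B i := fun hx => h1 ⟨x, hx, rfl⟩
        rw [hB] at h2
        simp only [Set.mem_ofPred_eq, not_forall, not_le] at h2
        obtain ⟨a, ha, h3⟩ := h2
        exact ⟨a, fun _ => ⟨ha, h3.le⟩⟩
    choose sel hsel using hsel
    refine ⟨fun q => if q.2 = sel q.1 then (Real.sqrt (p q.1 (π x) * H) : ℂ) else 0, ?_, ?_⟩
    · rw [sum_sigma]
      calc ∑ i : {y // y ∈ t'}, ∑ a ∈ A i, ‖(if a = sel i then (Real.sqrt (p i (π x) * H) : ℂ) else 0)‖ ^ 2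
          ≤ ∑ i : {y // y ∈ t'}, p i (π x) * H := by
            refine sum_le_sum fun i _ => ?_
            have h1 : ∀ a ∈ A i, ‖(if a = sel i then (Real.sqrt (p i (π x) * H) : ℂ) else 0)‖ ^ 2 =
                if a = sel i then p i (π x) * H else 0 := by
              intro a _
              split_ifs
              · rw [Complex.norm_real, Real.norm_of_nonneg (Real.sqrt_nonneg _),
                  Real.sq_sqrt (mul_nonneg (hp0 i _) hH0.le)]
              · simp
            rw [sum_congr rfl h1, sum_ite_eq']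
            split_ifs
            · exact le_rfl
            · exact mul_nonneg (hp0 i _) hH0.le
        _ = H := by rw [← sum_mul, hp1 _ hxG, one_mul]
    · have h1 : ∀ m, ∑ q ∈ (Finset.univ : Finset {y // y ∈ t'}).sigma (fun i => A i),
          (if q.2 = sel q.1 then (Real.sqrt (p q.1 (π x) * H) : ℂ) else 0) *
            ((Real.sqrt (p q.1 (π x) / H) : ℂ) * F (T^[m] q.2)) = ∑ i : {y // y ∈ t'}, (p i (π x) : ℂ) * F (T^[m] (sel i)) := by
        intro m
        rw [sum_sigma]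
        refine sum_congr rfl fun i _ => ?_
        have h2 : ∀ a ∈ A i, (if a = sel i then (Real.sqrt (p i (π x) * H) : ℂ) else 0) *
            ((Real.sqrt (p i (π x) / H) : ℂ) * F (T^[m] a)) =
            if a = sel i then (p i (π x) : ℂ) * F (T^[m] (sel i)) else 0 := by
          intro a _
          split_ifs with h
          · subst h
            have h3 : Real.sqrt (p i (π x) * H) * Real.sqrt (p i (π x) / H) = p i (π x) := by
              rw [← Real.sqrt_mul (mul_nonneg (hp0 i _) hH0.le)]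
              have : p i (π x) * H * (p i (π x) / H) = p i (π x) ^ 2 := by
                field_simp
              rw [this, Real.sqrt_sq (hp0 i _)]
            rw [← mul_assoc, ← Complex.ofReal_mul, h3]
          · rw [zero_mul]
        rw [sum_congr rfl h2, sum_ite_eq']
        by_cases h : p i (π x) = 0
        · rw [h]
          simp
        · rw [if_pos (hsel i h).1]
      have h2 : ∀ m, F (T^[m] x) - ∑ q ∈ (Finset.univ : Finset {y // y ∈ t'}).sigma (fun i => A i),
          (if q.2 = sel q.1 then (Real.sqrt (p q.1 (π x) * H) : ℂ) else 0) *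
            ((Real.sqrt (p q.1 (π x) / H) : ℂ) * F (T^[m] q.2)) =
          ∑ i : {y // y ∈ t'}, (p i (π x) : ℂ) * (F (T^[m] x) - F (T^[m] (sel i))) := by
        intro m
        rw [h1 m]
        have h3 : ∑ i : {y // y ∈ t'}, (p i (π x) : ℂ) = 1 := by
          rw [← Complex.ofReal_sum, hp1 _ hxG, Complex.ofReal_one]
        calc F (T^[m] x) - ∑ i : {y // y ∈ t'}, (p i (π x) : ℂ) * F (T^[m] (sel i))
            = (∑ i : {y // y ∈ t'}, (p i (π x) : ℂ)) * F (T^[m] x) - ∑ i : {y // y ∈ t'}, (p i (π x) : ℂ) * F (T^[m] (sel i)) := by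
              rw [h3, one_mul]
          _ = _ := by
              rw [sum_mul, ← sum_sub_distrib]
              exact sum_congr rfl fun i _ => by ring
      calc ∑ m ∈ range H, ‖F (T^[m] x) - ∑ q ∈ (Finset.univ : Finset {y // y ∈ t'}).sigma (fun i => A i),
          (if q.2 = sel q.1 then (Real.sqrt (p q.1 (π x) * H) : ℂ) else 0) *
            ((Real.sqrt (p q.1 (π x) / H) : ℂ) * F (T^[m] q.2))‖
          ≤ ∑ m ∈ range H, ∑ i : {y // y ∈ t'}, p i (π x) * ‖F (T^[m] x) - F (T^[m] (sel i))‖ := by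
            refine sum_le_sum fun m _ => ?_
            rw [h2 m]
            refine (norm_sum_le _ _).trans (sum_le_sum fun i _ => ?_)
            rw [norm_mul, Complex.norm_real, Real.norm_of_nonneg (hp0 i _)]
        _ = ∑ i : {y // y ∈ t'}, p i (π x) * ∑ m ∈ range H, ‖F (T^[m] x) - F (T^[m] (sel i))‖ := by
            rw [sum_comm]
            exact sum_congr rfl fun i _ => (mul_sum _ _ _).symm
        _ ≤ ∑ i : {y // y ∈ t'}, p i (π x) * (2 * δ * H) := by
            refine sum_le_sum fun i _ => ?_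
            by_cases h : p i (π x) = 0
            · rw [h, zero_mul, zero_mul]
            · exact mul_le_mul_of_nonneg_left (hsel i h).2 (hp0 i _)
        _ = 2 * δ * H := by rw [← sum_mul, hp1 _ hxG, one_mul]

end

end Pool.Agent.R296.VC
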