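import Pool.Agent.R296.VC.Cover

set_option autoImplicit false

/-! # Windows along orbits which jump in the fibres -/

namespace Pool.Agent.R296.VC

open Finset Filter Topology
open Pool.Agent.Helper602.MK (ee)
open Pool.Agent.Y842.PH Pool.Agent.Y842.CX Pool.Agent.R296.RE

noncomputable section

section

variable {X Y : Type*} [TopologicalSpace Y]

/-- the orbits of the points of `P` spend at most the proportion `δ` of the time outside of `G` -/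
def Mostly {Y : Type*} (S : Y → Y) (P G : Set Y) (δ : ℝ) : Prop :=
  ∃ N₀ : ℕ, ∀ N ≥ N₀, ∀ y ∈ P, ∃ V : Finset ℕ, (∀ n < N, S^[n] y ∉ G → n ∈ V) ∧ (V.card : ℝ) ≤ δ * N

lemma Mostly_univ {Y : Type*} {S : Y → Y} {P : Set Y} {κ : ℝ} (h : 0 ≤ κ) : Mostly S P Set.univ κ :=
  ⟨0, fun N _ y _ => ⟨∅, fun _ _ h => absurd (Set.mem_univ _) h, by simpa using by positivity⟩⟩

theorem fib1 {f : ℕ → ℤ} (hb : ∀ n, |f n| ≤ 1) {E : Set ℕ} (hE : Kf f E) {S : Y → Y} {𝒴 : Set Y}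
    (hAP : ∀ c : C(Y, ℂ), UAP {b | ∃ y ∈ 𝒴, b = fun n => c (S^[n] y)}) {T : X → X} {π : X → Y}
    {F : X → ℂ} {C : ℝ} (hC : ∀ x, ‖F x‖ ≤ C) {ι : Type*} (s : Finset ι) (w : ι → ℕ → C(Y, ℂ)) (H : ℕ)
    (hH : 1 ≤ H) {t δ κ : ℝ} (ht : 0 < t) (hw : ∀ y, ∑ i ∈ s, ∑ m ∈ range H, ‖w i m y‖ ^ 2 ≤ t ^ 2 * H)
    {G : Set Y} (hG : Mostly S 𝒴 G κ) (hδ : 0 ≤ δ)
    (hc : ∀ x, π x ∈ G → ∃ c : ι → ℂ, ∑ i ∈ s, ‖c i‖ ^ 2 ≤ H ∧
      ∑ m ∈ range H, ‖F (T^[m] x) - ∑ i ∈ s, c i * w i m (π x)‖ ≤ δ * H) :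
    ∃ N₀ : ℕ, ∀ N ≥ N₀, N ∉ E → ∀ y ∈ 𝒴, ∀ x : ℕ → X, (∀ n, π (x n) = S^[n] y) → ∀ θ : ℝ,
      ∑ n ∈ range N, ‖∑ m ∈ range H, tw f θ (n + m) * F (T^[m] (x n))‖ ≤ (δ + 2 * t + κ * C) * (H * N) := by
  classical
  have hH0 : (0 : ℝ) < H := by exact_mod_cast hH
  obtain ⟨N₀, h1⟩ := quad hb hE hAP s w H (t ^ 2 * H) (by positivity)
  obtain ⟨N₁, hG1⟩ := hG
  refine ⟨N₀ + N₁, fun N hN hNE y hy x hx θ => ?_⟩
  have hC0 : 0 ≤ C := (norm_nonneg _).trans (hC (x 0))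
  obtain ⟨V, hV1, hV2⟩ := hG1 N (by omega) y hy
  have h2 := h1 N (by omega) hNE y hy θ
  set g : ι → ℕ → ℂ := fun i n => ∑ m ∈ range H, tw f θ (n + m) * w i m (S^[n] y) with hg
  have h3 : ∑ n ∈ range N, ∑ i ∈ s, ‖g i n‖ ^ 2 ≤ 2 * t ^ 2 * (H * N) := by
    refine h2.trans ?_
    have h4 : ∑ n ∈ range N, ∑ i ∈ s, ∑ m ∈ range H, ‖w i m (S^[n] y)‖ ^ 2 ≤ ∑ _n ∈ range N, t ^ 2 * H :=
      sum_le_sum fun n _ => hw _
    rw [sum_const, card_range, nsmul_eq_mul] at h4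
    linarith
  have hone : ∀ n ∈ range N, ‖∑ m ∈ range H, tw f θ (n + m) * F (T^[m] (x n))‖ ≤
      (δ * H + t / 2 * H + 1 / (2 * t) * ∑ i ∈ s, ‖g i n‖ ^ 2) + (if n ∈ V then (H : ℝ) * C else 0) := by
    intro n hnN
    have hpos : 0 ≤ δ * H + t / 2 * H + 1 / (2 * t) * ∑ i ∈ s, ‖g i n‖ ^ 2 := by positivity
    by_cases hnV : n ∈ V
    · rw [if_pos hnV]
      have h4 : ‖∑ m ∈ range H, tw f θ (n + m) * F (T^[m] (x n))‖ ≤ H * C := by
        refine (norm_sum_le _ _).trans ((sum_le_sum fun m _ => ?_).trans (le_of_eq (by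
          rw [sum_const, card_range, nsmul_eq_mul])))
        rw [norm_mul]
        calc ‖tw f θ (n + m)‖ * ‖F (T^[m] (x n))‖ ≤ 1 * C :=
              mul_le_mul (norm_tw hb θ _) (hC _) (norm_nonneg _) zero_le_one
          _ = C := one_mul C
      linarith
    rw [if_neg hnV, add_zero]
    have hnG : π (x n) ∈ G := by
      by_contra h
      rw [hx] at h
      exact hnV (hV1 n (mem_range.1 hnN) h)
    obtain ⟨c, hc1, hc2⟩ := hc (x n) hnG
    rw [hx] at hc2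
    have e1 : ∑ m ∈ range H, tw f θ (n + m) * F (T^[m] (x n)) =
        ∑ m ∈ range H, tw f θ (n + m) * (F (T^[m] (x n)) - ∑ i ∈ s, c i * w i m (S^[n] y)) +
        ∑ i ∈ s, c i * g i n := by
      have e2 : ∑ i ∈ s, c i * g i n = ∑ m ∈ range H, tw f θ (n + m) * ∑ i ∈ s, c i * w i m (S^[n] y) := by
        simp only [hg, mul_sum]
        rw [sum_comm]
        refine sum_congr rfl fun m _ => sum_congr rfl fun i _ => ?_
        ring
      rw [e2, ← sum_add_distrib]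
      refine sum_congr rfl fun m _ => ?_
      ring
    rw [e1]
    refine (norm_add_le _ _).trans ?_
    rw [add_assoc]
    refine add_le_add ?_ ?_
    · refine (norm_sum_le _ _).trans (le_trans (sum_le_sum fun m _ => ?_) hc2)
      rw [norm_mul]
      calc ‖tw f θ (n + m)‖ * _ ≤ 1 * _ := mul_le_mul_of_nonneg_right (norm_tw hb θ _) (norm_nonneg _)
        _ = _ := one_mul _
    · refine (norm_sum_le _ _).trans ?_
      calc ∑ i ∈ s, ‖c i * g i n‖ ≤ ∑ i ∈ s, (t / 2 * ‖c i‖ ^ 2 + 1 / (2 * t) * ‖g i n‖ ^ 2) := by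
            refine sum_le_sum fun i _ => ?_
            rw [norm_mul]
            have h5 : 0 ≤ (t * ‖c i‖ - ‖g i n‖) ^ 2 / (2 * t) := by positivity
            have h6 : (t * ‖c i‖ - ‖g i n‖) ^ 2 / (2 * t) =
                t / 2 * ‖c i‖ ^ 2 + 1 / (2 * t) * ‖g i n‖ ^ 2 - ‖c i‖ * ‖g i n‖ := by
              field_simp
              ring
            linarith
        _ = t / 2 * ∑ i ∈ s, ‖c i‖ ^ 2 + 1 / (2 * t) * ∑ i ∈ s, ‖g i n‖ ^ 2 := by
            rw [sum_add_distrib, ← mul_sum, ← mul_sum]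
        _ ≤ _ := add_le_add (mul_le_mul_of_nonneg_left hc1 (by positivity)) le_rfl
  have hVs : ∑ n ∈ range N, (if n ∈ V then (H : ℝ) * C else 0) ≤ κ * C * (H * N) := by
    have h5 : ∑ n ∈ range N, (if n ∈ V then (H : ℝ) * C else 0) ≤ ∑ _n ∈ V, (H : ℝ) * C := by
      rw [← sum_filter]
      refine sum_le_sum_of_subset_of_nonneg (fun n hn => (mem_filter.1 hn).2) fun n _ _ => by positivity
    rw [sum_const, nsmul_eq_mul] at h5
    have h6 : (V.card : ℝ) * (H * C) ≤ κ * N * (H * C) := mul_le_mul_of_nonneg_right hV2 (by positivity)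
    linarith
  calc ∑ n ∈ range N, ‖∑ m ∈ range H, tw f θ (n + m) * F (T^[m] (x n))‖
      ≤ ∑ n ∈ range N, ((δ * H + t / 2 * H + 1 / (2 * t) * ∑ i ∈ s, ‖g i n‖ ^ 2) +
        (if n ∈ V then (H : ℝ) * C else 0)) := sum_le_sum hone
    _ = N * (δ * H + t / 2 * H) + 1 / (2 * t) * ∑ n ∈ range N, ∑ i ∈ s, ‖g i n‖ ^ 2 +
        ∑ n ∈ range N, (if n ∈ V then (H : ℝ) * C else 0) := by
        rw [sum_add_distrib, sum_add_distrib, sum_const, card_range, nsmul_eq_mul, ← mul_sum]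
    _ ≤ N * (δ * H + t / 2 * H) + 1 / (2 * t) * (2 * t ^ 2 * (H * N)) + κ * C * (H * N) :=
        add_le_add (add_le_add le_rfl (mul_le_mul_of_nonneg_left h3 (by positivity))) hVs
    _ = (δ + t / 2 + t + κ * C) * (H * N) := by
        field_simp
    _ ≤ (δ + 2 * t + κ * C) * (H * N) := by
        apply mul_le_mul_of_nonneg_right _ (by positivity)
        linarith

omit [TopologicalSpace Y] in
/-- long windows from short windows, with jumps in the fibres -/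
theorem split_fib {S : Y → Y} {T : X → X} {π : X → Y} (hπT : ∀ x, π (T x) = S (π x)) {F : X → ℂ} {C : ℝ}
    (hC : ∀ x, ‖F x‖ ≤ C) {f : ℕ → ℤ} (hb : ∀ n, |f n| ≤ 1) (θ : ℝ) (y : Y) (N H H₁ : ℕ) (hH : 1 ≤ H₁) {κ : ℝ}
    (h : ∀ x : ℕ → X, (∀ n, π (x n) = S^[n] y) →
      ∑ n ∈ range N, ‖∑ m ∈ range H₁, tw f θ (n + m) * F (T^[m] (x n))‖ ≤ κ)
    (x : ℕ → X) (hx : ∀ n, π (x n) = S^[n] y) :
    ∑ n ∈ range N, ‖∑ m ∈ range H, tw f θ (n + m) * F (T^[m] (x n))‖ ≤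
      H / H₁ * κ + H ^ 2 * C + 2 * H₁ * C * N := by
  have hC0 : 0 ≤ C := (norm_nonneg _).trans (hC (x 0))
  have hH0 : (0 : ℝ) < H₁ := by exact_mod_cast hH
  have hπn : ∀ n x, π (T^[n] x) = S^[n] (π x) := by
    intro n x
    induction n with
    | zero => rfl
    | succ n ih => rw [Function.iterate_succ_apply', hπT, ih, Function.iterate_succ_apply']
  have hF1 : ∀ k z, ‖tw f θ k * F z‖ ≤ C := by
    intro k z
    rw [norm_mul]
    calc ‖tw f θ k‖ * ‖F z‖ ≤ 1 * C := mul_le_mul (norm_tw hb θ k) (hC _) (norm_nonneg _) zero_le_one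
      _ = C := one_mul C
  -- the short window at `k` of the orbit of `z`
  set g : ℕ → X → ℝ := fun k z => ‖∑ j ∈ range H₁, tw f θ (k + j) * F (T^[j] z)‖ with hg
  have hg0 : ∀ k z, 0 ≤ g k z := fun k z => norm_nonneg _
  have hg1 : ∀ k z, g k z ≤ H₁ * C := by
    intro k z
    refine (norm_sum_le _ _).trans ((sum_le_sum fun m _ => hF1 _ _).trans ?_)
    rw [sum_const, card_range, nsmul_eq_mul]
  have h1 : ∀ n, ‖∑ m ∈ range H, tw f θ (n + m) * F (T^[m] (x n))‖ ≤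
      1 / H₁ * ∑ m ∈ range H, g (n + m) (T^[m] (x n)) + 2 * H₁ * C := by
    intro n
    have h2 := long_sum (fun m => tw f θ (n + m) * F (T^[m] (x n))) (fun m => hF1 _ _) H H₁ hH
    refine h2.trans (le_of_eq ?_)
    congr 2
    refine sum_congr rfl fun m _ => ?_
    rw [hg]
    show ‖∑ j ∈ range H₁, tw f θ (n + (m + j)) * F (T^[m + j] (x n))‖ =
      ‖∑ j ∈ range H₁, tw f θ (n + m + j) * F (T^[j] (T^[m] (x n)))‖
    congr 1
    refine sum_congr rfl fun j _ => ?_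
    rw [← add_assoc, ← Function.iterate_add_apply, add_comm j m]
  have h2 : ∀ m, ∑ n ∈ range N, g (n + m) (T^[m] (x n)) ≤ κ + m * (H₁ * C) := by
    intro m
    set x' : ℕ → X := fun k => if m ≤ k then T^[m] (x (k - m)) else x k with hx'
    have hx1 : ∀ k, π (x' k) = S^[k] y := by
      intro k
      by_cases hk : m ≤ k
      · simp only [hx', if_pos hk]
        rw [hπn, hx, ← Function.iterate_add_apply, Nat.add_sub_cancel' hk]
      · simp only [hx', if_neg hk]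
        exact hx k
    have h3 := h x' hx1
    have h4 : ∑ n ∈ range N, g (n + m) (T^[m] (x n)) = ∑ n ∈ range N, g (n + m) (x' (n + m)) := by
      refine sum_congr rfl fun n _ => ?_
      simp only [hx', if_pos (Nat.le_add_left m n), Nat.add_sub_cancel]
    have h5 : ∑ n ∈ range N, g (n + m) (x' (n + m)) ≤ ∑ k ∈ range (N + m), g k (x' k) := by
      have h6 := sum_range_add (fun k => g k (x' k)) m N
      rw [add_comm N m, h6]
      have h7 : 0 ≤ ∑ k ∈ range m, g k (x' k) := sum_nonneg fun k _ => hg0 _ _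
      have h8 : ∑ n ∈ range N, g (n + m) (x' (n + m)) = ∑ n ∈ range N, g (m + n) (x' (m + n)) :=
        sum_congr rfl fun n _ => by rw [add_comm]
      rw [h8]
      linarith
    have h6 : ∑ k ∈ range (N + m), g k (x' k) ≤ κ + m * (H₁ * C) := by
      rw [sum_range_add]
      refine add_le_add h3 ((sum_le_sum fun k _ => hg1 _ _).trans (le_of_eq ?_))
      rw [sum_const, card_range, nsmul_eq_mul]
    rw [h4]
    exact h5.trans h6
  calc ∑ n ∈ range N, ‖∑ m ∈ range H, tw f θ (n + m) * F (T^[m] (x n))‖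
      ≤ ∑ n ∈ range N, (1 / H₁ * ∑ m ∈ range H, g (n + m) (T^[m] (x n)) + 2 * H₁ * C) :=
        sum_le_sum fun n _ => h1 n
    _ = 1 / H₁ * ∑ m ∈ range H, ∑ n ∈ range N, g (n + m) (T^[m] (x n)) + N * (2 * H₁ * C) := by
        rw [sum_add_distrib, ← mul_sum, sum_comm, sum_const, card_range, nsmul_eq_mul]
    _ ≤ 1 / H₁ * ∑ _m ∈ range H, (κ + H * (H₁ * C)) + N * (2 * H₁ * C) := by
        refine add_le_add (mul_le_mul_of_nonneg_left (sum_le_sum fun m hm => (h2 m).trans ?_) (by positivity)) le_rfl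
        refine add_le_add le_rfl (mul_le_mul_of_nonneg_right ?_ (by positivity))
        exact_mod_cast (mem_range.1 hm).le
    _ = _ := by
        rw [sum_const, card_range, nsmul_eq_mul]
        field_simp

end

variable {X Y : Type} [TopologicalSpace X] [CompactSpace X] [TopologicalSpace Y] [CompactSpace Y] [T2Space Y]

/-- windows along orbits with jumps in the fibres -/
theorem fib_of_cov {f : ℕ → ℤ} (hb : ∀ n, |f n| ≤ 1) {E : Set ℕ} (hE : Kf f E) {S : Y → Y} {𝒴 : Set Y}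
    (hAP : ∀ c : C(Y, ℂ), UAP {b | ∃ y ∈ 𝒴, b = fun n => c (S^[n] y)}) {T : X → X} (hT : Continuous T) {π : X → Y}
    (hπ : Continuous π) (hπT : ∀ x, π (T x) = S (π x)) {F : X → ℂ} (hF : Continuous F) {C : ℝ} (hC : ∀ x, ‖F x‖ ≤ C)
    (hcov : ∀ δ : ℝ, 0 < δ → ∃ H : ℕ, 1 ≤ H ∧ ∃ G : Set Y, IsClosed G ∧ Mostly S 𝒴 G δ ∧
      ∀ y ∈ G, CovAt T π F H δ (δ * H) y) (ε : ℝ) (hε : 0 < ε) :
    ∃ H₀ : ℕ, ∀ H ≥ H₀, ∃ N₀ : ℕ, ∀ N ≥ N₀, N ∉ E → ∀ y ∈ 𝒴, ∀ x : ℕ → X, (∀ n, π (x n) = S^[n] y) → ∀ θ : ℝ,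
      ∑ n ∈ range N, ‖∑ m ∈ range H, tw f θ (n + m) * F (T^[m] (x n))‖ ≤ ε * (H * N) := by
  rcases isEmpty_or_nonempty X with hX | hX
  · exact ⟨0, fun H _ => ⟨0, fun N _ _ y _ x => (hX.false (x 0)).elim⟩⟩
  have hC0 : 0 ≤ C := (norm_nonneg _).trans (hC (Classical.arbitrary X))
  set t : ℝ := ε / 16 with ht
  have ht0 : 0 < t := by positivity
  set δ : ℝ := min (min (ε / 32) (t ^ 2 / (C ^ 2 + 1))) (ε / (32 * (C + 1))) with hδ
  have hδ0 : 0 < δ := lt_min (lt_min (by positivity) (by positivity)) (by positivity)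
  obtain ⟨H₁, hH₁, G, hG, hGm, h1⟩ := hcov δ hδ0
  have hH₁0 : (0 : ℝ) < H₁ := by exact_mod_cast hH₁
  have hKC : δ * H₁ * C ^ 2 ≤ t ^ 2 * H₁ := by
    have h2 : δ ≤ t ^ 2 / (C ^ 2 + 1) := (min_le_left _ _).trans (min_le_right _ _)
    rw [le_div_iff₀ (by positivity)] at h2
    nlinarith
  obtain ⟨ι, s, w, hw, hc⟩ := approx_of_cov hT hπ hF hC H₁ hH₁ hδ0 (by positivity) hKC hG h1
  obtain ⟨N₁, h2⟩ := fib1 hb hE hAP hC s w H₁ hH₁ ht0 hw hGm (by positivity) hc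
  obtain ⟨H₀, hH₀⟩ := exists_nat_ge (8 * (H₁ * C) / ε)
  refine ⟨H₀ + 1, fun H hH => ?_⟩
  have hH0 : (0 : ℝ) < H := by exact_mod_cast (by omega : 0 < H)
  obtain ⟨N₂, hN₂⟩ := exists_nat_ge (4 * (H * C) / ε)
  refine ⟨N₁ + N₂, fun N hN hNE y hy x hx θ => ?_⟩
  have hN0 : (0 : ℝ) ≤ N := Nat.cast_nonneg N
  have h4 := split_fib hπT hC hb θ y N H H₁ hH₁ (fun x hx => h2 N (by omega) hNE y hy x hx θ) x hx
  have hδ1 : δ ≤ ε / 32 := (min_le_left _ _).trans (min_le_left _ _)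
  have hδ2 : δ * C ≤ ε / 32 := by
    have h2 : δ ≤ ε / (32 * (C + 1)) := min_le_right _ _
    rw [le_div_iff₀ (by positivity)] at h2
    nlinarith
  have h5 : (H : ℝ) / H₁ * ((2 * δ + 2 * t + δ * C) * (H₁ * N)) ≤ ε / 4 * (H * N) := by
    calc (H : ℝ) / H₁ * ((2 * δ + 2 * t + δ * C) * (H₁ * N)) = (2 * δ + 2 * t + δ * C) * (H * N) := by field_simp
      _ ≤ ε / 4 * (H * N) := mul_le_mul_of_nonneg_right (by rw [ht]; linarith) (by positivity)
  have h6 : (H : ℝ) ^ 2 * C ≤ ε / 4 * (H * N) := by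
    have h7 : (4 * (H * C) / ε : ℝ) ≤ N := hN₂.trans (by exact_mod_cast (by omega : N₂ ≤ N))
    rw [div_le_iff₀ hε] at h7
    nlinarith
  have h8 : 2 * (H₁ : ℝ) * C * N ≤ ε / 4 * (H * N) := by
    have h9 : (8 * (H₁ * C) / ε : ℝ) ≤ H := hH₀.trans (by exact_mod_cast (by omega : H₀ ≤ H))
    rw [div_le_iff₀ hε] at h9
    nlinarith
  have h10 : 0 ≤ ε * (H * N) := by positivity
  linarith

end

end Pool.Agent.R296.VC
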