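import Pool.Agent.R296.VC.Samp

set_option autoImplicit false

/-! # Patterns of preconnected subsets of a finite graph -/

namespace Pool.Agent.R296.VC

open Finset Filter Topology

noncomputable section

/-- a space which consists of finitely many open arcs and finitely many further points -/
def Edges (Z : Type) [TopologicalSpace Z] : Prop :=
  ∃ (k : ℕ) (γ : Fin k → ℝ → Z), (∀ i, Continuous (γ i)) ∧ (∀ i, Set.InjOn (γ i) (Set.Ioo 0 1)) ∧
    (∀ i a b, 0 ≤ a → b ≤ 1 → IsOpen (γ i '' Set.Ioo a b)) ∧ (⋃ i, γ i '' Set.Ioo 0 1)ᶜ.Finite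

/-- a preconnected set does not separate -/
lemma sep {Z : Type} [TopologicalSpace Z] [T2Space Z] {γ : ℝ → Z} (hγ : Continuous γ)
    (hi : Set.InjOn γ (Set.Ioo 0 1)) (ho : ∀ a b, 0 ≤ a → b ≤ 1 → IsOpen (γ '' Set.Ioo a b)) {D : Set Z}
    (hD : IsPreconnected D) {a b c e : ℝ} (ha : 0 < a) (hab : a < b) (hbc : b < c) (hc : c < 1) (he0 : 0 < e)
    (he1 : e < 1) (he : e < a ∨ c < e) (h1 : γ a ∉ D) (h2 : γ b ∈ D) (h3 : γ c ∉ D) (h4 : γ e ∈ D) : False := by
  have hU : IsOpen (γ '' Set.Ioo a c) := ho a c ha.le hc.le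
  have hV : IsOpen (γ '' Set.Icc a c)ᶜ := (isCompact_Icc.image hγ).isClosed.isOpen_compl
  have h5 : D ⊆ γ '' Set.Ioo a c ∪ (γ '' Set.Icc a c)ᶜ := by
    intro z hz
    by_cases h : z ∈ γ '' Set.Icc a c
    · obtain ⟨x, hx, rfl⟩ := h
      refine Or.inl ⟨x, ⟨lt_of_le_of_ne hx.1 ?_, lt_of_le_of_ne hx.2 ?_⟩, rfl⟩
      · rintro rfl
        exact h1 hz
      · rintro rfl
        exact h3 hz
    · exact Or.inr h
  have h6 : γ e ∉ γ '' Set.Icc a c := by
    rintro ⟨x, hx, hxe⟩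
    have := hi ⟨lt_of_lt_of_le ha hx.1, lt_of_le_of_lt hx.2 hc⟩ ⟨he0, he1⟩ hxe
    rw [this] at hx
    rcases he with he | he
    · linarith [hx.1]
    · linarith [hx.2]
  obtain ⟨z, -, hz1, hz2⟩ := hD _ _ hU hV h5 ⟨γ b, h2, b, ⟨hab, hbc⟩, rfl⟩ ⟨γ e, h4, h6⟩
  exact hz2 (Set.image_mono Set.Ioo_subset_Icc_self hz1)

/-- patterns without long alternations -/
lemma count_line {s : ℕ} (χ : ℝ → Fin s → Bool)
    (halt : ∀ i a b c d, 0 < a → a < b → b < c → c < d → d < 1 → χ a i = χ c i → χ b i = χ d i → χ a i = χ b i)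
    (B : Finset ℝ) (hB : ∀ x ∈ B, 0 < x ∧ x < 1) (hd : ∀ a ∈ B, ∀ b ∈ B, (∀ i, χ a i = χ b i) → a = b) :
    B.card ≤ 2 * s + 1 := by
  classical
  by_contra hcon
  push Not at hcon
  set g := B.orderEmbOfFin rfl with hg
  have hgB : ∀ m, g m ∈ B := fun m => B.orderEmbOfFin_mem rfl m
  have h1 : ∀ m : Fin (2 * s + 1), ∃ i : Fin s, χ (g ⟨m, by omega⟩) i ≠ χ (g ⟨m + 1, by omega⟩) i := by
    intro m
    by_contra h
    push Not at h
    have h2 := hd _ (hgB _) _ (hgB _) h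
    have h3 := g.injective h2
    rw [Fin.mk.injEq] at h3
    omega
  choose i hi using h1
  obtain ⟨j, hj⟩ := Fintype.exists_lt_card_fiber_of_mul_lt_card i (n := 2) (by
    rw [Fintype.card_fin, Fintype.card_fin]
    omega)
  set t := (univ : Finset (Fin (2 * s + 1))).filter fun x => i x = j with ht
  set e := t.orderEmbOfFin rfl with he
  have het : ∀ m, i (e m) = j := fun m => (mem_filter.1 (t.orderEmbOfFin_mem rfl m)).2
  have h12 : e ⟨0, by omega⟩ < e ⟨1, by omega⟩ := e.strictMono (by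
    show (0 : ℕ) < 1
    omega)
  have h23 : e ⟨1, by omega⟩ < e ⟨2, by omega⟩ := e.strictMono (by
    show (1 : ℕ) < 2
    omega)
  have f1 := hi (e ⟨0, by omega⟩)
  have f2 := hi (e ⟨1, by omega⟩)
  have f3 := hi (e ⟨2, by omega⟩)
  rw [het] at f1 f2 f3
  generalize e ⟨0, by omega⟩ = m1 at *
  generalize e ⟨1, by omega⟩ = m2 at *
  generalize e ⟨2, by omega⟩ = m3 at *
  have l1 : g ⟨m1, by omega⟩ < g ⟨m1 + 1, by omega⟩ := g.strictMono (by
    show (m1 : ℕ) < m1 + 1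
    omega)
  have l2 : g ⟨m1 + 1, by omega⟩ ≤ g ⟨m2, by omega⟩ := g.monotone (by
    show (m1 : ℕ) + 1 ≤ m2
    exact h12)
  have l3 : g ⟨m2, by omega⟩ < g ⟨m2 + 1, by omega⟩ := g.strictMono (by
    show (m2 : ℕ) < m2 + 1
    omega)
  have l4 : g ⟨m2 + 1, by omega⟩ ≤ g ⟨m3, by omega⟩ := g.monotone (by
    show (m2 : ℕ) + 1 ≤ m3
    exact h23)
  have l5 : g ⟨m3, by omega⟩ < g ⟨m3 + 1, by omega⟩ := g.strictMono (by
    show (m3 : ℕ) < m3 + 1
    omega)
  have b1 := (hB _ (hgB ⟨m1, by omega⟩)).1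
  have b2 := (hB _ (hgB ⟨m3, by omega⟩)).2
  have b3 := (hB _ (hgB ⟨m3 + 1, by omega⟩)).2
  generalize g ⟨m1, by omega⟩ = x1 at *
  generalize g ⟨m1 + 1, by omega⟩ = x1' at *
  generalize g ⟨m2, by omega⟩ = x2 at *
  generalize g ⟨m2 + 1, by omega⟩ = x2' at *
  generalize g ⟨m3, by omega⟩ = x3 at *
  generalize g ⟨m3 + 1, by omega⟩ = x3' at *
  obtain ⟨c1, hc1, hc1a, hc1b⟩ : ∃ c, χ c j = χ x1 j ∧ x2 ≤ c ∧ c ≤ x2' := by
    by_cases h : χ x2 j = χ x1 j
    · exact ⟨x2, h, le_rfl, l3.le⟩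
    · refine ⟨x2', ?_, l3.le, le_rfl⟩
      revert h f2
      cases χ x2 j <;> cases χ x1 j <;> cases χ x2' j <;> simp
  obtain ⟨c2, hc2, hc2a, hc2b⟩ : ∃ c, χ c j = χ x1' j ∧ x3 ≤ c ∧ c ≤ x3' := by
    by_cases h : χ x3 j = χ x1' j
    · exact ⟨x3, h, le_rfl, l5.le⟩
    · refine ⟨x3', ?_, l5.le, le_rfl⟩
      revert h f3
      cases χ x3 j <;> cases χ x1' j <;> cases χ x3' j <;> simp
  have q1 : x1' < c1 := by
    refine lt_of_le_of_ne (l2.trans hc1a) fun h => ?_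
    rw [← h] at hc1
    exact f1 hc1.symm
  have q2 : c1 < c2 := by
    refine lt_of_le_of_ne ((hc1b.trans l4).trans hc2a) fun h => ?_
    rw [← h, hc1] at hc2
    exact f1 hc2
  exact f1 (halt j x1 x1' c1 c2 b1 l1 q1 q2 (lt_of_le_of_lt hc2b b3) hc1.symm hc2.symm)

/-- the number of patterns of preconnected sets in a graph -/
theorem count_graph {Z : Type} [TopologicalSpace Z] [T2Space Z] (hZ : Edges Z) :
    ∃ C : ℕ, ∀ (s : ℕ) (D : Fin s → Set Z) (B : Finset Z), (∀ i, IsPreconnected (D i)) →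
      (∀ a ∈ B, ∀ b ∈ B, (∀ i, a ∈ D i ↔ b ∈ D i) → a = b) → B.card ≤ C * (s + 1) ^ 1 := by
  classical
  obtain ⟨k, γ, hγ, hinj, ho, hfin⟩ := hZ
  refine ⟨2 * k + hfin.toFinset.card, fun s D B hD hB => ?_⟩
  have h1 : B ⊆ ((univ : Finset (Fin k)).biUnion fun i => B.filter fun z => z ∈ γ i '' Set.Ioo 0 1) ∪
      hfin.toFinset := by
    intro z hz
    by_cases h : z ∈ (⋃ i, γ i '' Set.Ioo 0 1)ᶜ
    · exact mem_union_right _ (hfin.mem_toFinset.2 h)
    · rw [Set.notMem_compl_iff] at h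
      obtain ⟨i, hi⟩ := Set.mem_iUnion.1 h
      exact mem_union_left _ (mem_biUnion.2 ⟨i, mem_univ i, mem_filter.2 ⟨hz, hi⟩⟩)
  have h2 : ∀ i : Fin k, (B.filter fun z => z ∈ γ i '' Set.Ioo 0 1).card ≤ 2 * s + 1 := by
    intro i
    set B' := B.filter fun z => z ∈ γ i '' Set.Ioo 0 1 with hB'
    have h3 : ∀ z : Z, ∃ x : ℝ, z ∈ B' → (0 < x ∧ x < 1) ∧ γ i x = z := by
      intro z
      by_cases h : z ∈ B'
      · obtain ⟨x, hx, hxz⟩ := (mem_filter.1 h).2
        exact ⟨x, fun _ => ⟨hx, hxz⟩⟩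
      · exact ⟨0, fun h' => absurd h' h⟩
    choose r hr using h3
    have h4 : (B'.image r).card = B'.card := by
      refine card_image_of_injOn ?_
      intro z hz z' hz' h
      rw [← (hr z hz).2, ← (hr z' hz').2]
      exact congrArg _ h
    rw [← h4]
    refine count_line (fun x j => decide (γ i x ∈ D j)) ?_ _ ?_ ?_
    · intro j a b c d ha hab hbc hcd hd1 hac hbd
      by_contra hne
      simp only [decide_eq_decide] at hac hbd hne
      by_cases haD : γ i a ∈ D j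
      · have hbD : γ i b ∉ D j := fun h => hne ⟨fun _ => h, fun _ => haD⟩
        exact sep (hγ i) (hinj i) (ho i) (hD j) (ha.trans hab) hbc hcd hd1 ha
          (hab.trans (hbc.trans (hcd.trans hd1))) (Or.inl hab) hbD (hac.1 haD) (fun h => hbD (hbd.2 h)) haD
      · have hbD : γ i b ∈ D j := by
          by_contra h
          exact hne ⟨fun h' => absurd h' haD, fun h' => absurd h' h⟩
        exact sep (hγ i) (hinj i) (ho i) (hD j) ha hab hbc (hcd.trans hd1)
          (ha.trans (hab.trans (hbc.trans hcd))) hd1 (Or.inr hcd) haD hbD (fun h => haD (hac.2 h)) (hbd.1 hbD)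
    · intro x hx
      obtain ⟨z, hz, rfl⟩ := mem_image.1 hx
      exact (hr z hz).1
    · intro a ha b hb hab
      obtain ⟨z, hz, rfl⟩ := mem_image.1 ha
      obtain ⟨z', hz', rfl⟩ := mem_image.1 hb
      have h5 : z = z' := hB z (mem_filter.1 hz).1 z' (mem_filter.1 hz').1 (by
        intro j
        have h6 := hab j
        simp only [decide_eq_decide] at h6
        rwa [(hr z hz).2, (hr z' hz').2] at h6)
      rw [h5]
  have h5 := (card_le_card h1).trans (card_union_le _ _)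
  have h6 : ((univ : Finset (Fin k)).biUnion fun i => B.filter fun z => z ∈ γ i '' Set.Ioo 0 1).card ≤
      k * (2 * s + 1) := by
    refine card_biUnion_le.trans ((sum_le_sum fun i _ => h2 i).trans ?_)
    rw [sum_const, card_univ, Fintype.card_fin, smul_eq_mul]
  rw [pow_one]
  nlinarith [Nat.zero_le (hfin.toFinset.card * s), Nat.zero_le (k * s), Nat.zero_le k]

/-- small connected sets -/
lemma small_sets {Y Z : Type} [TopologicalSpace Y] [CompactSpace Y] [TopologicalSpace Z] [CompactSpace Z]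
    [LocallyConnectedSpace Z] (F : C(Y × Z, ℂ)) {ε : ℝ} (hε : 0 < ε) :
    ∃ (t : Finset Z) (V : Z → Set Z), (∀ z, IsPreconnected (V z)) ∧ (∀ z, ∃ j ∈ t, z ∈ V j) ∧
      ∀ j z z', z ∈ V j → z' ∈ V j → ∀ y, ‖F (y, z) - F (y, z')‖ ≤ ε := by
  set G : C(Z, C(Y, ℂ)) := (F.comp ⟨Prod.swap, continuous_swap⟩).curry with hG
  have h1 : ∀ z : Z, ∃ V : Set Z, V ⊆ {x | ‖G x - G z‖ < ε / 2} ∧ IsOpen V ∧ z ∈ V ∧ IsConnected V := by
    intro z
    have h2 : {x | ‖G x - G z‖ < ε / 2} ∈ 𝓝 z := by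
      refine (isOpen_lt (by fun_prop) continuous_const).mem_nhds ?_
      show ‖G z - G z‖ < ε / 2
      rw [sub_self, norm_zero]
      positivity
    exact locallyConnectedSpace_iff_subsets_isOpen_isConnected.1 inferInstance z _ h2
  choose V hV1 hV2 hV3 hV4 using h1
  obtain ⟨t, ht⟩ := isCompact_univ.elim_finite_subcover V hV2 fun z _ => Set.mem_iUnion.2 ⟨z, hV3 z⟩
  refine ⟨t, V, fun z => (hV4 z).isPreconnected, fun z => ?_, fun j z z' hz hz' y => ?_⟩
  · obtain ⟨j, hj, hz⟩ := Set.mem_iUnion₂.1 (ht (Set.mem_univ z))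
    exact ⟨j, hj, hz⟩
  · have h3 : ‖G z - G j‖ < ε / 2 := hV1 j hz
    have h4 : ‖G z' - G j‖ < ε / 2 := hV1 j hz'
    have h5 : ‖(G z - G z') y‖ ≤ ‖G z - G z'‖ := ContinuousMap.norm_coe_le_norm _ y
    have h6 : ‖G z - G z'‖ ≤ ‖G z - G j‖ + ‖G z' - G j‖ := by
      have : G z - G z' = (G z - G j) - (G z' - G j) := by abel
      rw [this]
      exact norm_sub_le _ _
    have h7 : (G z - G z') y = F (y, z) - F (y, z') := rfl
    rw [← h7]
    linarith

/-- coverings of the fibres of extensions by finite graphs and monotone maps -/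
theorem cov_graph {Y Z : Type} [TopologicalSpace Y] [CompactSpace Y] [TopologicalSpace Z] [CompactSpace Z] [T2Space Z]
    [LocallyConnectedSpace Z] (hZ : Edges Z) (S : Y → Y) (f : Y → Z → Z)
    (hf : ∀ y (D : Set Z), IsPreconnected D → IsPreconnected (f y ⁻¹' D)) (F : C(Y × Z, ℂ)) (δ : ℝ) (hδ : 0 < δ) :
    ∃ H : ℕ, 1 ≤ H ∧ ∀ y, CovAt (fun x : Y × Z => (S x.1, f x.1 x.2)) Prod.fst F H δ (δ * H) y := by
  classical
  set T : Y × Z → Y × Z := fun x => (S x.1, f x.1 x.2) with hT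
  obtain ⟨C, hC⟩ : ∃ C, ∀ x, ‖F x‖ ≤ C := by
    refine ⟨‖F‖, fun x => ContinuousMap.norm_coe_le_norm F x⟩
  obtain ⟨K, hK⟩ := count_graph hZ
  have hpre : ∀ (m : ℕ) (y : Y) (D : Set Z), IsPreconnected D → IsPreconnected {z | (T^[m] (y, z)).2 ∈ D} := by
    intro m
    induction m with
    | zero => intro y D hD; exact hD
    | succ m ih =>
      intro y D hD
      have h1 := hf y _ (ih (S y) D hD)
      exact h1
  refine cov_of_pat (T := T) (π := (Prod.fst : Y × Z → Y)) (S := S) (fun x => rfl) hC (fun ε hε => ?_) δ hδ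
  obtain ⟨t, V, hV1, hV2, hV3⟩ := small_sets F hε
  refine ⟨Option {z // z ∈ t}, inferInstance, inferInstance,
    fun x j => match j with | none => true | some j => decide (x.2 ∈ V j), fun s => K * (s + 1) ^ 1,
    slow_of_poly K 1 fun s => le_rfl, ?_, ?_⟩
  · rintro ⟨y, z⟩ ⟨y', z'⟩ (rfl : y = y') h
    obtain ⟨j, hj, hz⟩ := hV2 z
    have h1 := h (some ⟨j, hj⟩)
    have h2 : z ∈ V j ↔ z' ∈ V j := decide_eq_decide.1 h1
    exact hV3 j z z' hz (h2.1 hz) y
  · intro y s u B hBy hB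
    have h1 := hK s (fun i => match (u i).2 with
      | none => ∅
      | some j => {z | (T^[(u i).1] (y, z)).2 ∈ V j}) (B.image Prod.snd) ?_ ?_
    · rwa [card_image_of_injOn] at h1
      intro a ha b hb hab
      exact Prod.ext ((hBy a ha).trans (hBy b hb).symm) hab
    · intro i
      rcases (u i).2 with _ | j
      · exact isPreconnected_empty
      · exact hpre _ y _ (hV1 j)
    · intro a ha b hb hab
      obtain ⟨a', ha', rfl⟩ := mem_image.1 ha
      obtain ⟨b', hb', rfl⟩ := mem_image.1 hb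
      refine congrArg Prod.snd (hB a' ha' b' hb' fun i => ?_)
      have h2 := hab i
      revert h2
      have ea : a' = (y, a'.2) := Prod.ext (hBy a' ha') rfl
      have eb : b' = (y, b'.2) := Prod.ext (hBy b' hb') rfl
      rcases (u i).2 with _ | j
      · intro _
        rfl
      · intro h2
        show decide ((T^[(u i).1] a').2 ∈ V j) = decide ((T^[(u i).1] b').2 ∈ V j)
        rw [ea, eb]
        exact decide_eq_decide.2 h2

end

end Pool.Agent.R296.VC
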