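import Mathlib

set_option autoImplicit false

/-! # Partial patterns: a separated family shatters many sets -/

namespace Pool.Agent.R296.VC

open Finset

noncomputable section

lemma sum_choose_le (n d : ℕ) : ∑ k ∈ range (d + 1), n.choose k ≤ (n + 1) ^ d := by
  calc ∑ k ∈ range (d + 1), n.choose k ≤ ∑ k ∈ range (d + 1), n ^ k * 1 ^ (d - k) * d.choose k := by
        refine sum_le_sum fun k hk => ?_
        rw [one_pow, mul_one]
        calc n.choose k ≤ n ^ k * 1 := by
              rw [mul_one]
              exact Nat.choose_le_pow n k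
          _ ≤ n ^ k * d.choose k := Nat.mul_le_mul_left _ (Nat.choose_pos (by
              have := mem_range.1 hk
              omega))
    _ = (n + 1) ^ d := (add_pow n 1 d).symm

section

variable {α E : Type} (P Q : α → E → Prop)

/-- the set `R` of coordinates is shattered by the set `p` of points -/
def Sh (p : Finset α) (R : Finset E) : Prop :=
  ∀ t ⊆ R, ∃ z ∈ p, (∀ e ∈ t, P z e) ∧ ∀ e ∈ R, e ∉ t → Q z e

variable {P Q}

lemma Sh_mono {p q : Finset α} (h : p ⊆ q) {R : Finset E} (hR : Sh P Q p R) : Sh P Q q R := by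
  intro t ht
  obtain ⟨z, hz, h1⟩ := hR t ht
  exact ⟨z, h hz, h1⟩

open Classical in
theorem big_shatter [Fintype E] [Nonempty E] (hPQ : ∀ z e, ¬ (P z e ∧ Q z e)) (r : ℕ) :
    ∀ p : Finset α, (∀ a ∈ p, ∀ b ∈ p, a ≠ b → ∃ e, (P a e ∧ Q b e) ∨ (Q a e ∧ P b e)) →
      (Fintype.card E + 1) ^ r ≤ p.card → 2 ^ r ≤ ((univ : Finset (Finset E)).filter fun R => Sh P Q p R).card := by
  induction r with
  | zero =>
    intro p _ hp
    rw [pow_zero] at hp ⊢
    obtain ⟨z, hz⟩ := card_pos.1 (Nat.succ_le_iff.1 hp)
    refine card_pos.2 ⟨∅, mem_filter.2 ⟨mem_univ _, fun t ht => ⟨z, hz, ?_, ?_⟩⟩⟩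
    · intro e he
      exact absurd (ht he) (notMem_empty e)
    · intro e he
      exact absurd he (notMem_empty e)
  | succ r ih =>
    intro p hsep hp
    set M := (Fintype.card E + 1) ^ r with hM
    have hM1 : 1 ≤ M := Nat.one_le_pow _ _ (Nat.succ_pos _)
    have hE1 : 1 ≤ Fintype.card E := Fintype.card_pos
    have key : ∃ e, M ≤ (p.filter fun z => P z e).card ∧ M ≤ (p.filter fun z => Q z e).card := by
      by_contra hcon
      push Not at hcon
      set rem : E → Finset α := fun e => if (p.filter fun z => P z e).card < M then p.filter fun z => P z e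
        else p.filter fun z => Q z e with hrem
      have h1 : ∀ e, (rem e).card ≤ M - 1 := by
        intro e
        by_cases h : (p.filter fun z => P z e).card < M
        · simp only [hrem, if_pos h]
          omega
        · simp only [hrem, if_neg h]
          have := hcon e (not_lt.1 h)
          omega
      have h2 : ((univ : Finset E).biUnion rem).card ≤ Fintype.card E * (M - 1) := by
        refine card_biUnion_le.trans ((sum_le_sum fun e _ => h1 e).trans ?_)
        rw [sum_const, card_univ, smul_eq_mul]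
      have h3 : 1 < (p \ (univ : Finset E).biUnion rem).card := by
        have h4 := le_card_sdiff ((univ : Finset E).biUnion rem) p
        have h5 : Fintype.card E * (M - 1) + Fintype.card E = Fintype.card E * M := by
          rw [← Nat.mul_succ]
          congr 1
          omega
        have h6 : (Fintype.card E + 1) ^ (r + 1) = Fintype.card E * M + M := by
          rw [pow_succ, ← hM]
          ring
        omega
      obtain ⟨a, ha, b, hb, hab⟩ := one_lt_card.1 h3
      rw [mem_sdiff, mem_biUnion] at ha hb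
      obtain ⟨e, he⟩ := hsep a ha.1 b hb.1 hab
      have ha2 : a ∉ rem e := fun h => ha.2 ⟨e, mem_univ _, h⟩
      have hb2 : b ∉ rem e := fun h => hb.2 ⟨e, mem_univ _, h⟩
      by_cases h : (p.filter fun z => P z e).card < M
      · simp only [hrem, if_pos h] at ha2 hb2
        rcases he with ⟨h7, -⟩ | ⟨-, h7⟩
        · exact ha2 (mem_filter.2 ⟨ha.1, h7⟩)
        · exact hb2 (mem_filter.2 ⟨hb.1, h7⟩)
      · simp only [hrem, if_neg h] at ha2 hb2
        rcases he with ⟨-, h7⟩ | ⟨h7, -⟩
        · exact hb2 (mem_filter.2 ⟨hb.1, h7⟩)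
        · exact ha2 (mem_filter.2 ⟨ha.1, h7⟩)
    obtain ⟨e, he0, he1⟩ := key
    set p0 := p.filter fun z => P z e with hp0
    set p1 := p.filter fun z => Q z e with hp1
    set W := fun q : Finset α => (univ : Finset (Finset E)).filter fun R => Sh P Q q R with hW
    have i0 : 2 ^ r ≤ (W p0).card := ih p0 (fun a ha b hb => hsep a (filter_subset _ _ ha) b (filter_subset _ _ hb)) he0
    have i1 : 2 ^ r ≤ (W p1).card := ih p1 (fun a ha b hb => hsep a (filter_subset _ _ ha) b (filter_subset _ _ hb)) he1
    have n0 : ∀ R ∈ W p0, e ∉ R := by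
      intro R hR heR
      obtain ⟨z, hz, -, h2⟩ := (mem_filter.1 hR).2 ∅ (empty_subset _)
      exact hPQ z e ⟨(mem_filter.1 hz).2, h2 e heR (notMem_empty e)⟩
    have n1 : ∀ R ∈ W p1, e ∉ R := by
      intro R hR heR
      obtain ⟨z, hz, h2, -⟩ := (mem_filter.1 hR).2 R Subset.rfl
      exact hPQ z e ⟨h2 e heR, (mem_filter.1 hz).2⟩
    have hsub : (W p0 ∪ W p1) ∪ (W p0 ∩ W p1).image (insert e) ⊆ W p := by
      intro R hR
      rcases mem_union.1 hR with hR | hR
      · rcases mem_union.1 hR with hR | hR
        · exact mem_filter.2 ⟨mem_univ _, Sh_mono (filter_subset _ _) (mem_filter.1 hR).2⟩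
        · exact mem_filter.2 ⟨mem_univ _, Sh_mono (filter_subset _ _) (mem_filter.1 hR).2⟩
      · obtain ⟨R, hR', rfl⟩ := mem_image.1 hR
        rw [mem_inter] at hR'
        refine mem_filter.2 ⟨mem_univ _, fun t ht => ?_⟩
        by_cases het : e ∈ t
        · obtain ⟨z, hz, h1, h2⟩ := (mem_filter.1 hR'.1).2 (t.erase e) (by
            rw [← subset_insert_iff]
            exact ht)
          refine ⟨z, (mem_filter.1 hz).1, fun x hx => ?_, fun x hx hxt => ?_⟩
          · by_cases hxe : x = e
            · rw [hxe]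
              exact (mem_filter.1 hz).2
            · exact h1 x (mem_erase.2 ⟨hxe, hx⟩)
          · rcases mem_insert.1 hx with h | h
            · rw [h] at hxt
              exact absurd het hxt
            · exact h2 x h fun h' => hxt (mem_erase.1 h').2
        · obtain ⟨z, hz, h1, h2⟩ := (mem_filter.1 hR'.2).2 t (by
            intro x hx
            rcases mem_insert.1 (ht hx) with h | h
            · rw [h] at hx
              exact absurd hx het
            · exact h)
          refine ⟨z, (mem_filter.1 hz).1, h1, fun x hx hxt => ?_⟩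
          rcases mem_insert.1 hx with h | h
          · rw [h]
            exact (mem_filter.1 hz).2
          · exact h2 x h hxt
    have hdis : Disjoint (W p0 ∪ W p1) ((W p0 ∩ W p1).image (insert e)) := by
      rw [Finset.disjoint_left]
      intro R hR hR2
      obtain ⟨R', -, rfl⟩ := mem_image.1 hR2
      rcases mem_union.1 hR with h | h
      · exact n0 _ h (mem_insert_self _ _)
      · exact n1 _ h (mem_insert_self _ _)
    have himg : ((W p0 ∩ W p1).image (insert e)).card = (W p0 ∩ W p1).card := by
      refine card_image_of_injOn ?_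
      intro R hR R' hR' h
      have a1 := n0 R (mem_inter.1 hR).1
      have a2 := n0 R' (mem_inter.1 hR').1
      rw [← erase_insert a1, ← erase_insert a2]
      exact congrArg (fun s : Finset E => s.erase e) h
    have h1 := card_le_card hsub
    rw [card_union_of_disjoint hdis, himg, card_union_add_card_inter] at h1
    have h2 : 2 ^ (r + 1) = 2 ^ r + 2 ^ r := by rw [pow_succ]; ring
    show 2 ^ (r + 1) ≤ (W p).card
    omega

/-- the bound for the number of separated points -/
def qp (n D : ℕ) : ℕ := (n + 1) ^ (D * (Nat.log 2 (n + 1) + 1) + 1)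

open Classical in
theorem card_of_sep [Fintype E] [Nonempty E] (hPQ : ∀ z e, ¬ (P z e ∧ Q z e)) (D : ℕ) (p : Finset α)
    (hsep : ∀ a ∈ p, ∀ b ∈ p, a ≠ b → ∃ e, (P a e ∧ Q b e) ∨ (Q a e ∧ P b e))
    (hD : ∀ R : Finset E, Sh P Q p R → R.card ≤ D) : p.card ≤ qp (Fintype.card E) D := by
  by_contra hcon
  push Not at hcon
  set n := Fintype.card E with hn
  have h1 := big_shatter hPQ (D * (Nat.log 2 (n + 1) + 1) + 1) p hsep hcon.le
  have h2 : ((univ : Finset (Finset E)).filter fun R => Sh P Q p R) ⊆
      (range (D + 1)).biUnion fun k => powersetCard k (univ : Finset E) := by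
    intro R hR
    have h3 := hD R (mem_filter.1 hR).2
    exact mem_biUnion.2 ⟨R.card, mem_range.2 (by omega), mem_powersetCard.2 ⟨subset_univ _, rfl⟩⟩
  have h3 := (card_le_card h2).trans card_biUnion_le
  have h4 : ∑ k ∈ range (D + 1), (powersetCard k (univ : Finset E)).card = ∑ k ∈ range (D + 1), n.choose k :=
    sum_congr rfl fun k _ => by rw [card_powersetCard, card_univ]
  rw [h4] at h3
  have h5 := h3.trans (sum_choose_le n D)
  have h6 : n + 1 < 2 ^ (Nat.log 2 (n + 1) + 1) := Nat.lt_pow_succ_log_self (by norm_num) _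
  have h7 : (n + 1) ^ D ≤ (2 ^ (Nat.log 2 (n + 1) + 1)) ^ D := Nat.pow_le_pow_left h6.le D
  rw [← pow_mul, mul_comm _ D] at h7
  have h8 : 2 ^ (D * (Nat.log 2 (n + 1) + 1)) < 2 ^ (D * (Nat.log 2 (n + 1) + 1) + 1) :=
    Nat.pow_lt_pow_right (by norm_num) (Nat.lt_succ_self _)
  omega

end

end

end Pool.Agent.R296.VC
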