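import Pool.Agent.R296.VC.Samp
import Pool.Agent.R296.VC.Part
import Pool.Agent.R296.VC.Fib

set_option autoImplicit false

/-! # Relatively null extensions have fibres of bounded mean complexity -/

namespace Pool.Agent.R296.VC

open Finset Filter Topology

noncomputable section

lemma exists_exp (C c : ℕ) : ∃ u : ℕ, C * (u + c) ^ 2 + 2 < 2 ^ u := by
  have h1 := tendsto_pow_const_mul_const_pow_of_abs_lt_one 2 (show |(1 / 2 : ℝ)| < 1 by
    rw [abs_of_pos (by norm_num)]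
    norm_num)
  have h2 : ∀ᶠ n : ℕ in atTop, (n : ℝ) ^ 2 * (1 / 2) ^ n < 1 / ((C + 2) * 2 ^ c) :=
    h1.eventually_lt_const (by positivity)
  obtain ⟨n, hn, hn1⟩ := (h2.and (eventually_ge_atTop (c + 1))).exists
  obtain ⟨u, rfl⟩ : ∃ u, n = u + c := ⟨n - c, by omega⟩
  refine ⟨u, ?_⟩
  rw [one_div_pow, mul_one_div, div_lt_div_iff₀ (by positivity) (by positivity), one_mul, pow_add] at hn
  have h3 : ((u + c : ℕ) : ℝ) ^ 2 * (C + 2) < 2 ^ u := by
    have h4 : (0 : ℝ) < 2 ^ c := by positivity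
    have h5 : (((u + c : ℕ) : ℝ) ^ 2 * (C + 2)) * 2 ^ c < 2 ^ u * 2 ^ c := by
      rw [mul_assoc]
      exact hn
    exact lt_of_mul_lt_mul_right h5 h4.le
  have h4 : (u + c) ^ 2 * (C + 2) < 2 ^ u := by exact_mod_cast h3
  have h5 : 1 ≤ (u + c) ^ 2 := Nat.one_le_pow _ _ (by omega)
  nlinarith

lemma slow_qp (k D : ℕ) : Slow fun s => qp (s * k) D := by
  intro η hη hη1
  have h0 : (0 : ℝ) ≤ 1 - η := by linarith
  have h1 : ∃ t₀ : ℕ, (1 - η) ^ (2 ^ t₀) ≤ 1 / 2 := by
    obtain ⟨n, hn⟩ := exists_pow_lt_of_lt_one (show (0 : ℝ) < 1 / 2 by norm_num) (show 1 - η < 1 by linarith)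
    refine ⟨n, (pow_le_pow_of_le_one h0 (by linarith) ?_).trans hn.le⟩
    exact Nat.lt_two_pow_self.le
  obtain ⟨t₀, ht₀⟩ := h1
  obtain ⟨u, hu⟩ := exists_exp (2 * (D + 1)) (t₀ + k + 1)
  set t := t₀ + u with ht
  refine ⟨2 ^ t, ?_⟩
  have h2 : 2 ^ t * k + 1 ≤ 2 ^ (t + k) := by
    have h3 : k + 1 ≤ 2 ^ k := Nat.lt_two_pow_self
    have h4 : 1 ≤ 2 ^ t := Nat.one_le_two_pow
    calc 2 ^ t * k + 1 ≤ 2 ^ t * (k + 1) := by
          rw [mul_add, mul_one]
          omega
      _ ≤ 2 ^ t * 2 ^ k := Nat.mul_le_mul_left _ h3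
      _ = 2 ^ (t + k) := (pow_add 2 t k).symm
  have h3 : Nat.log 2 (2 ^ t * k + 1) ≤ t + k := by
    calc Nat.log 2 (2 ^ t * k + 1) ≤ Nat.log 2 (2 ^ (t + k)) := Nat.log_mono_right h2
      _ = t + k := Nat.log_pow (by norm_num) _
  have h4 : qp (2 ^ t * k) D ≤ 2 ^ ((D + 1) * (t + k + 1) ^ 2) := by
    unfold qp
    calc (2 ^ t * k + 1) ^ (D * (Nat.log 2 (2 ^ t * k + 1) + 1) + 1)
        ≤ (2 ^ t * k + 1) ^ (D * (t + k + 1) + 1) := by
          refine Nat.pow_le_pow_right (Nat.succ_pos _) ?_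
          have := Nat.mul_le_mul_left D (Nat.add_le_add_right h3 1)
          omega
      _ ≤ (2 ^ (t + k)) ^ (D * (t + k + 1) + 1) := Nat.pow_le_pow_left h2 _
      _ = 2 ^ ((t + k) * (D * (t + k + 1) + 1)) := (pow_mul 2 _ _).symm
      _ ≤ 2 ^ ((D + 1) * (t + k + 1) ^ 2) := by
          refine Nat.pow_le_pow_right (by norm_num) ?_
          nlinarith [Nat.zero_le (D * (t + k + 1)), Nat.zero_le (t + k)]
  have h5 : ((qp (2 ^ t * k) D + 1 : ℕ) : ℝ) ≤ 2 ^ ((D + 1) * (t + k + 1) ^ 2 + 1) := by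
    have h6 : qp (2 ^ t * k) D + 1 ≤ 2 ^ ((D + 1) * (t + k + 1) ^ 2 + 1) := by
      have h7 : 1 ≤ 2 ^ ((D + 1) * (t + k + 1) ^ 2) := Nat.one_le_two_pow
      rw [pow_succ]
      omega
    exact_mod_cast h6
  have h6 : (1 - η) ^ (2 ^ t) ≤ (1 / 2) ^ (2 ^ u) := by
    rw [ht, pow_add, pow_mul]
    exact pow_le_pow_left₀ (pow_nonneg h0 _) ht₀ _
  have h7 : 2 * ((D + 1) * (t + k + 1) ^ 2 + 1) < 2 ^ u := by
    have e : u + (t₀ + k + 1) = t + k + 1 := by omega
    rw [e] at hu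
    calc 2 * ((D + 1) * (t + k + 1) ^ 2 + 1) = 2 * (D + 1) * (t + k + 1) ^ 2 + 2 := by ring
      _ < 2 ^ u := hu
  calc ((qp (2 ^ t * k) D + 1 : ℕ) : ℝ) ^ 2 * (1 - η) ^ (2 ^ t)
      ≤ (2 ^ ((D + 1) * (t + k + 1) ^ 2 + 1)) ^ 2 * (1 / 2) ^ (2 ^ u) :=
        mul_le_mul (pow_le_pow_left₀ (Nat.cast_nonneg _) h5 2) h6 (pow_nonneg h0 _) (by positivity)
    _ = 2 ^ (2 * ((D + 1) * (t + k + 1) ^ 2 + 1)) * (1 / 2) ^ (2 ^ u) := by
        rw [← pow_mul, mul_comm _ 2]
    _ < 2 ^ (2 ^ u) * (1 / 2) ^ (2 ^ u) := by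
        refine mul_lt_mul_of_pos_right ?_ (by positivity)
        exact pow_lt_pow_right₀ (by norm_num) h7
    _ = 1 := by
        rw [← mul_pow]
        norm_num

/-- sampling lemma for a symmetric relation -/
theorem sample2 {ι U : Type} [Fintype U] [Nonempty U] (Dif : ι → ι → U → Prop) (hirr : ∀ a v, ¬ Dif a a v)
    (hsym : ∀ a b v, Dif a b v → Dif b a v) (s M : ℕ) {δ : ℝ} (hδ : 0 < δ)
    (hδ1 : δ ≤ 1) (hM : ((M + 1 : ℕ) : ℝ) ^ 2 * (1 - δ) ^ s < 1)
    (hp : ∀ u : Fin s → U, ∀ B : Finset ι, (∀ a ∈ B, ∀ b ∈ B, a ≠ b → ∃ i, Dif a b (u i)) → B.card ≤ M) :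
    ∃ A : Finset ι, A.card ≤ M ∧ ∀ x, ∃ a ∈ A, ∃ V : Finset U, (∀ v, Dif x a v → v ∈ V) ∧
      (V.card : ℝ) ≤ δ * Fintype.card U := by
  classical
  set Sep : Finset ι → Prop := fun A => ∀ a ∈ A, ∀ b ∈ A, a ≠ b →
    δ * Fintype.card U < (((univ : Finset U).filter fun v => Dif a b v).card : ℝ) with hSep
  have hU : (0 : ℝ) < Fintype.card U := by exact_mod_cast Fintype.card_pos
  have hsmall : ∀ A, Sep A → A.card ≤ M := by
    intro A hA
    by_contra hcon
    push Not at hcon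
    obtain ⟨B, hBA, hB⟩ := exists_subset_card_eq hcon
    have hu : ∀ u : Fin s → U, ∃ q ∈ B.offDiag, u ∈ Fintype.piFinset
        (fun _ : Fin s => (univ : Finset U).filter fun v => ¬ Dif q.1 q.2 v) := by
      intro u
      by_contra h
      have h1 : B.card ≤ M := hp u B fun a ha b hb hab => by
        by_contra hne
        push Not at hne
        refine h ⟨(a, b), mem_offDiag.2 ⟨ha, hb, hab⟩, ?_⟩
        rw [Fintype.mem_piFinset]
        intro i
        exact mem_filter.2 ⟨mem_univ _, hne i⟩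
      omega
    have h2 : (univ : Finset (Fin s → U)) ⊆ B.offDiag.biUnion fun q => Fintype.piFinset
        (fun _ : Fin s => (univ : Finset U).filter fun v => ¬ Dif q.1 q.2 v) := by
      intro u _
      obtain ⟨q, hq, h⟩ := hu u
      exact mem_biUnion.2 ⟨q, hq, h⟩
    have h3 := (card_le_card h2).trans card_biUnion_le
    rw [card_univ, Fintype.card_fun, Fintype.card_fin] at h3
    have h4 : ∀ q ∈ B.offDiag, (((Fintype.piFinset
        (fun _ : Fin s => (univ : Finset U).filter fun v => ¬ Dif q.1 q.2 v)).card : ℕ) : ℝ) ≤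
        ((1 - δ) * Fintype.card U) ^ s := by
      intro q hq
      rw [Fintype.card_piFinset_const, Nat.cast_pow]
      refine pow_le_pow_left₀ (Nat.cast_nonneg _) ?_ s
      rw [mem_offDiag] at hq
      have h5 := hA q.1 (hBA hq.1) q.2 (hBA hq.2.1) hq.2.2
      have h6 := card_filter_add_card_filter_not (s := (univ : Finset U)) (fun v => Dif q.1 q.2 v)
      rw [card_univ] at h6
      have h7 : (((univ : Finset U).filter fun v => Dif q.1 q.2 v).card : ℝ) +
          (((univ : Finset U).filter fun v => ¬ Dif q.1 q.2 v).card : ℝ) = Fintype.card U := by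
        exact_mod_cast h6
      linarith
    have h5 : (Fintype.card U : ℝ) ^ s ≤ ∑ q ∈ B.offDiag, ((1 - δ) * Fintype.card U) ^ s := by
      refine le_trans ?_ (sum_le_sum h4)
      rw [← Nat.cast_sum, ← Nat.cast_pow]
      exact_mod_cast h3
    rw [sum_const, nsmul_eq_mul, mul_pow] at h5
    have h6 : ((B.offDiag.card : ℕ) : ℝ) ≤ ((M + 1 : ℕ) : ℝ) ^ 2 := by
      have : B.offDiag.card ≤ (M + 1) ^ 2 := by
        rw [offDiag_card, hB, sq]
        exact Nat.sub_le _ _
      exact_mod_cast this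
    have h7 : (0 : ℝ) ≤ (1 - δ) ^ s := pow_nonneg (by linarith) _
    have h8 : (0 : ℝ) < (Fintype.card U : ℝ) ^ s := by positivity
    have h9 : (B.offDiag.card : ℝ) * ((1 - δ) ^ s * (Fintype.card U : ℝ) ^ s) < 1 * (Fintype.card U : ℝ) ^ s := by
      rw [← mul_assoc]
      refine mul_lt_mul_of_pos_right (lt_of_le_of_lt ?_ hM) h8
      exact mul_le_mul_of_nonneg_right h6 h7
    linarith
  set P : ℕ → Prop := fun k => ∃ A : Finset ι, Sep A ∧ A.card = k with hP
  have hP0 : P 0 := ⟨∅, by simp [hSep], rfl⟩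
  have hPM : ∀ k, P k → k ≤ M := by
    rintro k ⟨A, hA, rfl⟩
    exact hsmall A hA
  obtain ⟨A, hA, hAk⟩ := Nat.findGreatest_spec (P := P) (Nat.zero_le M) hP0
  refine ⟨A, hsmall A hA, fun x => ?_⟩
  by_contra hcon
  push Not at hcon
  have hcon' : ∀ a ∈ A, δ * Fintype.card U < (((univ : Finset U).filter fun v => Dif x a v).card : ℝ) := by
    intro a ha
    exact hcon a ha _ fun v hv => mem_filter.2 ⟨mem_univ v, hv⟩
  have hxA : x ∉ A := by
    intro hx
    have h1 := hcon' x hx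
    have h2 : ((univ : Finset U).filter fun v => Dif x x v) = ∅ := filter_false_of_mem fun v _ => hirr x v
    rw [h2, card_empty, Nat.cast_zero] at h1
    nlinarith
  have h1 : P (A.card + 1) := by
    refine ⟨insert x A, ?_, card_insert_of_notMem hxA⟩
    intro a ha b hb hab
    rcases mem_insert.1 ha with ha' | ha'
    · rcases mem_insert.1 hb with hb' | hb'
      · exact absurd (ha'.trans hb'.symm) hab
      · rw [ha']
        exact hcon' b hb'
    · rcases mem_insert.1 hb with hb' | hb'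
      · rw [hb']
        have := hcon' a ha'
        refine this.trans_le (le_of_eq ?_)
        congr 2
        ext v
        simp only [mem_filter, mem_univ, true_and]
        exact ⟨hsym _ _ _, hsym _ _ _⟩
      · exact hA a ha' b hb' hab
  have h2 : A.card + 1 ≤ Nat.findGreatest P M := Nat.le_findGreatest (hPM _ h1) h1
  omega

/-- few separated points along the orbits in each fibre give coverings of the fibres -/
theorem cov_of_sep {X Y : Type} {T : X → X} {π : X → Y} {F : X → ℂ} {C : ℝ} (hC : ∀ x, ‖F x‖ ≤ C) {δ : ℝ}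
    (hδ : 0 < δ) {g : ℕ → ℕ} (hg : Slow g) {G : Set Y}
    (hB : ∀ y ∈ G, ∀ (s : ℕ) (u : Fin s → ℕ) (B : Finset X), (∀ a ∈ B, π a = y) →
        (∀ a ∈ B, ∀ b ∈ B, a ≠ b → ∃ i, δ / 2 < ‖F (T^[u i] a) - F (T^[u i] b)‖) → B.card ≤ g s) :
    ∃ H : ℕ, 1 ≤ H ∧ ∀ y ∈ G, CovAt T π F H δ (δ * H) y := by
  classical
  rcases isEmpty_or_nonempty X with hX | hX
  · exact ⟨1, le_rfl, fun y _ => ⟨∅, by simpa using hδ.le, fun x => (hX.false x).elim⟩⟩
  have hC0 : 0 ≤ C := (norm_nonneg _).trans (hC (Classical.arbitrary X))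
  set η : ℝ := min 1 (δ / (4 * (C + 1))) with hη
  have hη0 : 0 < η := lt_min one_pos (by positivity)
  obtain ⟨s, hs⟩ := hg η hη0 (min_le_left _ _)
  obtain ⟨H, hH⟩ := exists_nat_ge ((g s : ℝ) / δ)
  refine ⟨H + 1, by omega, fun y hyG => ?_⟩
  set H' : ℕ := H + 1 with hH'
  have _ : Nonempty (Fin H') := ⟨⟨0, by omega⟩⟩
  obtain ⟨A, hA, hA2⟩ := sample2 (ι := {x // π x = y}) (U := Fin H')
    (fun x x' v => δ / 2 < ‖F (T^[v] x.1) - F (T^[v] x'.1)‖) (fun a v => by
      rw [sub_self, norm_zero, not_lt]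
      positivity) (fun a b v hv => by rwa [norm_sub_rev]) s (g s) hη0
    (min_le_left _ _) hs (by
      intro u B hB1
      have h1 := hB y hyG s (fun i => (u i : ℕ)) (B.map (Function.Embedding.subtype _)) (by
        intro a ha
        obtain ⟨b, _, rfl⟩ := Finset.mem_map.1 ha
        exact b.2) (by
        intro a ha b hb hab
        obtain ⟨a', ha', rfl⟩ := Finset.mem_map.1 ha
        obtain ⟨b', hb', rfl⟩ := Finset.mem_map.1 hb
        exact hB1 a' ha' b' hb' fun h => hab (congrArg _ h))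
      rwa [card_map] at h1)
  refine ⟨A.map (Function.Embedding.subtype _), ?_, ?_⟩
  · rw [card_map]
    have h1 : (A.card : ℝ) ≤ g s := by exact_mod_cast hA
    rw [div_le_iff₀ hδ] at hH
    have : (H' : ℝ) = H + 1 := by rw [hH']; push_cast; ring
    rw [this]
    nlinarith
  · intro x hx
    obtain ⟨a, ha, V, hV, hV2⟩ := hA2 ⟨x, hx⟩
    refine ⟨a, Finset.mem_map.2 ⟨a, ha, rfl⟩, ?_⟩
    rw [Fintype.card_fin] at hV2
    rw [← Fin.sum_univ_eq_sum_range (fun m => ‖F (T^[m] x) - F (T^[m] a.1)‖) H']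
    have h6 : ∀ m : Fin H', ‖F (T^[m] x) - F (T^[m] a.1)‖ ≤ δ / 2 + if m ∈ V then 2 * C else 0 := by
      intro m
      by_cases hmb : m ∈ V
      · rw [if_pos hmb]
        have h7 := norm_sub_le (F (T^[m] x)) (F (T^[m] a.1))
        have h8 := hC (T^[m] x)
        have h9 := hC (T^[m] a.1)
        linarith
      · rw [if_neg hmb, add_zero]
        by_contra hcon
        exact hmb (hV m (not_le.1 hcon))
    have h7 : ∑ m : Fin H', (if m ∈ V then 2 * C else 0) = V.card * (2 * C) := by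
      rw [sum_ite_mem, univ_inter, sum_const, nsmul_eq_mul]
    have h8 : η * (2 * C) ≤ δ / 2 := by
      have h9 : η ≤ δ / (4 * (C + 1)) := min_le_right _ _
      have h10 : η * (2 * C) ≤ δ / (4 * (C + 1)) * (2 * C) := by gcongr
      refine h10.trans ?_
      have h11 : δ / (4 * (C + 1)) * (2 * C) = δ / 2 * (C / (C + 1)) := by
        field_simp
        ring
      rw [h11]
      have h12 : C / (C + 1) ≤ 1 := by
        rw [div_le_one (by positivity)]
        linarith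
      nlinarith
    calc ∑ m : Fin H', ‖F (T^[m] x) - F (T^[m] a.1)‖
        ≤ ∑ m : Fin H', (δ / 2 + if m ∈ V then 2 * C else 0) := sum_le_sum fun m _ => h6 m
      _ = H' * (δ / 2) + V.card * (2 * C) := by
          rw [sum_add_distrib, h7, sum_const, card_univ, Fintype.card_fin, nsmul_eq_mul]
      _ ≤ H' * (δ / 2) + η * H' * (2 * C) := by gcongr
      _ = H' * (δ / 2) + H' * (η * (2 * C)) := by ring
      _ ≤ H' * (δ / 2) + H' * (δ / 2) := by gcongr
      _ = δ * H' := by ring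

lemma Mostly_iInter {Y : Type} {S : Y → Y} {P : Set Y} {ι : Type} [Fintype ι] {G : ι → Set Y} {κ : ℝ}
    (h : ∀ q, Mostly S P (G q) κ) : Mostly S P (⋂ q, G q) (Fintype.card ι * κ) := by
  classical
  choose N₀ hN₀ using h
  refine ⟨∑ q, N₀ q, fun N hN y hy => ?_⟩
  have h1 : ∀ q, N₀ q ≤ N := fun q => (single_le_sum (f := N₀) (fun _ _ => Nat.zero_le _) (mem_univ q)).trans hN
  have h2 := fun q => hN₀ q N (h1 q) y hy
  choose V hV1 hV2 using h2
  refine ⟨univ.biUnion V, fun n hn hG => ?_, ?_⟩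
  · rw [Set.mem_iInter, not_forall] at hG
    obtain ⟨q, hq⟩ := hG
    exact mem_biUnion.2 ⟨q, mem_univ q, hV1 q n hn hq⟩
  · have h3 : ((univ.biUnion V).card : ℝ) ≤ ∑ q, ((V q).card : ℝ) := by exact_mod_cast card_biUnion_le
    refine h3.trans ((sum_le_sum fun q _ => hV2 q).trans (le_of_eq ?_))
    rw [sum_const, card_univ, nsmul_eq_mul]
    ring

lemma Mostly_mono {Y : Type} {S : Y → Y} {P G : Set Y} {κ κ' : ℝ} (h : κ ≤ κ') (hG : Mostly S P G κ) :
    Mostly S P G κ' := by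
  obtain ⟨N₀, h1⟩ := hG
  refine ⟨N₀, fun N hN y hy => ?_⟩
  obtain ⟨V, hV1, hV2⟩ := h1 N hN y hy
  exact ⟨V, hV1, hV2.trans (mul_le_mul_of_nonneg_right h (Nat.cast_nonneg N))⟩

/-- `X` is null relative to `π`, over most base points: two disjoint closed sets are independent along the fibres for
boundedly many times only -/
def RelNull {X Y : Type} [TopologicalSpace X] [TopologicalSpace Y] (S : Y → Y) (P : Set Y) (T : X → X) (π : X → Y) :
    Prop :=
  ∀ A B : Set X, IsClosed A → IsClosed B → Disjoint A B → ∀ δ : ℝ, 0 < δ → ∃ (d : ℕ) (G : Set Y), IsClosed G ∧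
    Mostly S P G δ ∧ ∀ y ∈ G, ∀ m : Fin d → ℕ, ∃ τ : Fin d → Bool, ∀ x, π x = y →
      ∃ i, T^[m i] x ∉ (if τ i then A else B)

theorem cov_null {X Y : Type} [TopologicalSpace X] [CompactSpace X] [TopologicalSpace Y] {S : Y → Y} {P : Set Y}
    {T : X → X} {π : X → Y} (hN : RelNull S P T π)
    (F : C(X, ℂ)) (δ : ℝ) (hδ : 0 < δ) : ∃ H : ℕ, 1 ≤ H ∧ ∃ G : Set Y, IsClosed G ∧ Mostly S P G δ ∧
      ∀ y ∈ G, CovAt T π F H δ (δ * H) y := by
  classical
  obtain ⟨C, hC⟩ : ∃ C, ∀ x, ‖F x‖ ≤ C := ⟨‖F‖, fun x => ContinuousMap.norm_coe_le_norm F x⟩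
  set ε : ℝ := δ / 2 with hε'
  have hε : 0 < ε := by positivity
  set K : Set (X × X) := {q | ε ≤ ‖F q.1 - F q.2‖} with hK
  have hKc : IsCompact K := by
    refine IsClosed.isCompact (isClosed_le continuous_const ?_)
    fun_prop
  set W : X × X → Set (X × X) := fun q => {q' | ‖F q'.1 - F q.1‖ < ε / 4} ∩ {q' | ‖F q'.2 - F q.2‖ < ε / 4} with hW
  have hWo : ∀ q, IsOpen (W q) := by
    intro q
    exact IsOpen.inter (isOpen_lt (by fun_prop) continuous_const) (isOpen_lt (by fun_prop) continuous_const)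
  have hWq : ∀ q, q ∈ W q := by
    intro q
    constructor
    · show ‖F q.1 - F q.1‖ < ε / 4
      rw [sub_self, norm_zero]
      positivity
    · show ‖F q.2 - F q.2‖ < ε / 4
      rw [sub_self, norm_zero]
      positivity
  obtain ⟨t, ht⟩ := hKc.elim_finite_subcover_image (b := K) (c := W) (fun q _ => hWo q)
    (fun q hq => Set.mem_iUnion₂.2 ⟨q, hq, hWq q⟩)
  obtain ⟨htK, htf, ht2⟩ := ht
  set A : X × X → Set X := fun q => {x | ‖F x - F q.1‖ ≤ ε / 4} with hA
  set B : X × X → Set X := fun q => {x | ‖F x - F q.2‖ ≤ ε / 4} with hB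
  have hdis : ∀ q ∈ t, Disjoint (A q) (B q) := by
    intro q hq
    rw [Set.disjoint_left]
    intro x (h1 : ‖F x - F q.1‖ ≤ ε / 4) (h2 : ‖F x - F q.2‖ ≤ ε / 4)
    have h3 : ε ≤ ‖F q.1 - F q.2‖ := htK hq
    have h4 : ‖F q.1 - F q.2‖ ≤ ‖F x - F q.2‖ + ‖F x - F q.1‖ := by
      have : F q.1 - F q.2 = (F x - F q.2) - (F x - F q.1) := by ring
      rw [this]
      exact norm_sub_le _ _
    linarith
  have _ : Fintype t := htf.fintype
  set k := Fintype.card t with hk
  have hn : ∀ q : t, ∃ (d : ℕ) (G : Set Y), IsClosed G ∧ Mostly S P G (δ / (k + 1)) ∧ ∀ y ∈ G, ∀ m : Fin d → ℕ,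
      ∃ τ : Fin d → Bool, ∀ x, π x = y → ∃ i, T^[m i] x ∉ (if τ i then A q else B q) := by
    intro q
    exact hN (A q) (B q) (isClosed_le (by fun_prop) continuous_const)
        (isClosed_le (by fun_prop) continuous_const) (hdis q q.2) _ (by positivity)
  choose d G hG1 hG2 hd using hn
  set D : ℕ := ∑ q : t, d q with hD
  have hGm : Mostly S P (⋂ q, G q) δ := by
    refine Mostly_mono ?_ (Mostly_iInter hG2)
    rw [mul_div_assoc', div_le_iff₀ (by positivity)]
    nlinarith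
  suffices h : ∃ H : ℕ, 1 ≤ H ∧ ∀ y ∈ ⋂ q, G q, CovAt T π F H δ (δ * H) y by
    obtain ⟨H, hH, h1⟩ := h
    exact ⟨H, hH, _, isClosed_iInter hG1, hGm, h1⟩
  refine cov_of_sep hC hδ (slow_qp k D) fun y hyG s u p hpy hsep => ?_
  have hex : ∀ a ∈ p, ∀ b ∈ p, a ≠ b → ∃ e : Fin s × t, (T^[u e.1] a ∈ A e.2 ∧ T^[u e.1] b ∈ B e.2) ∨
      (T^[u e.1] a ∈ B e.2 ∧ T^[u e.1] b ∈ A e.2) := by
    intro a ha b hb hab
    obtain ⟨i, hi⟩ := hsep a ha b hb hab
    have h1 : (T^[u i] a, T^[u i] b) ∈ K := hi.le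
    obtain ⟨q, hq, h2, h3⟩ := Set.mem_iUnion₂.1 (ht2 h1)
    have h4 : ‖F (T^[u i] a) - F q.1‖ ≤ ε / 4 := le_of_lt h2
    have h5 : ‖F (T^[u i] b) - F q.2‖ ≤ ε / 4 := le_of_lt h3
    exact ⟨(i, ⟨q, hq⟩), Or.inl ⟨h4, h5⟩⟩
  by_cases hone : p.card ≤ 1
  · refine hone.trans ?_
    unfold qp
    exact Nat.one_le_pow _ _ (Nat.succ_pos _)
  · push Not at hone
    obtain ⟨a, ha, b, hb, hab⟩ := one_lt_card.1 hone
    obtain ⟨e, _⟩ := hex a ha b hb hab
    have _ : Nonempty (Fin s × t) := ⟨e⟩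
    have h1 := card_of_sep (α := X) (E := Fin s × t) (P := fun x e => T^[u e.1] x ∈ A e.2)
      (Q := fun x e => T^[u e.1] x ∈ B e.2) (fun z e hz => Set.disjoint_left.1 (hdis e.2 e.2.2) hz.1 hz.2) D p hex ?_
    · have h2 : Fintype.card (Fin s × t) = s * k := by
        rw [Fintype.card_prod, Fintype.card_fin]
      rw [h2] at h1
      exact h1
    · intro R hR
      by_contra hcon
      push Not at hcon
      -- some pair has many times
      have h2 : ∃ q : t, d q < (R.filter fun e => e.2 = q).card := by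
        by_contra h
        push Not at h
        have h3 : R.card = ∑ q : t, (R.filter fun e => e.2 = q).card :=
          card_eq_sum_card_fiberwise fun e _ => mem_coe.2 (mem_univ _)
        have h4 : R.card ≤ D := by
          rw [h3]
          exact sum_le_sum fun q _ => h q
        omega
      obtain ⟨q, hq⟩ := h2
      obtain ⟨R', hR', hRc⟩ := exists_subset_card_eq hq.le
      set en := R'.equivFinOfCardEq hRc with hen
      obtain ⟨τ, hτ⟩ := hd q y (Set.mem_iInter.1 hyG q) fun i => u (en.symm i).1.1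
      obtain ⟨z, hz, h5, h6⟩ := hR ((R'.attach.filter fun e => τ (en e) = true).map (Function.Embedding.subtype _)) (by
        intro e he
        obtain ⟨e', _, rfl⟩ := Finset.mem_map.1 he
        exact filter_subset _ _ (hR' e'.2))
      obtain ⟨i, hi⟩ := hτ z (hpy z hz)
      have hmem : (en.symm i).1 ∈ R := filter_subset _ _ (hR' (en.symm i).2)
      have heq : (en.symm i).1.2 = q := (mem_filter.1 (hR' (en.symm i).2)).2
      by_cases hti : τ i = true
      · rw [if_pos hti] at hi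
        refine hi ?_
        have h7 : T^[u (en.symm i).1.1] z ∈ A (en.symm i).1.2 := h5 (en.symm i).1 (Finset.mem_map.2
          ⟨en.symm i, mem_filter.2 ⟨mem_attach _ _, by
          rw [Equiv.apply_symm_apply]
          exact hti⟩, rfl⟩)
        rw [heq] at h7
        exact h7
      · rw [if_neg hti] at hi
        refine hi ?_
        have h7 : T^[u (en.symm i).1.1] z ∈ B (en.symm i).1.2 := h6 (en.symm i).1 hmem (by
          intro h8
          obtain ⟨e', he', he2⟩ := Finset.mem_map.1 h8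
          have h9 : e' = en.symm i := Subtype.ext he2
          rw [h9, mem_filter, Equiv.apply_symm_apply] at he'
          exact hti he'.2)
        rw [heq] at h7
        exact h7

end

end Pool.Agent.R296.VC
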