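import Pool.Agent.R296.VC.Cover

set_option autoImplicit false

/-! # Sampling: few patterns give few balls -/

namespace Pool.Agent.R296.VC

open Finset Filter Topology

noncomputable section

/-- sampling lemma: if on any `s` coordinates there are at most `M` patterns then all patterns are within distance
`δ` of at most `M` of them -/
theorem sample {ι U : Type} [Fintype U] [Nonempty U] (p : ι → U → Bool) (s M : ℕ) {δ : ℝ} (hδ : 0 < δ)
    (hδ1 : δ ≤ 1) (hM : ((M + 1 : ℕ) : ℝ) ^ 2 * (1 - δ) ^ s < 1)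
    (hp : ∀ u : Fin s → U, ∀ B : Finset ι, (∀ a ∈ B, ∀ b ∈ B, (∀ i, p a (u i) = p b (u i)) → a = b) →
      B.card ≤ M) :
    ∃ A : Finset ι, A.card ≤ M ∧ ∀ x, ∃ a ∈ A,
      (((univ : Finset U).filter fun v => p x v ≠ p a v).card : ℝ) ≤ δ * Fintype.card U := by
  classical
  set Sep : Finset ι → Prop := fun A => ∀ a ∈ A, ∀ b ∈ A, a ≠ b →
    δ * Fintype.card U < (((univ : Finset U).filter fun v => p a v ≠ p b v).card : ℝ) with hSep
  have hU : (0 : ℝ) < Fintype.card U := by exact_mod_cast Fintype.card_pos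
  have hsmall : ∀ A, Sep A → A.card ≤ M := by
    intro A hA
    by_contra hcon
    push Not at hcon
    obtain ⟨B, hBA, hB⟩ := exists_subset_card_eq hcon
    have hu : ∀ u : Fin s → U, ∃ q ∈ B.offDiag, u ∈ Fintype.piFinset
        (fun _ : Fin s => (univ : Finset U).filter fun v => p q.1 v = p q.2 v) := by
      intro u
      by_contra h
      have h1 : B.card ≤ M := hp u B fun a ha b hb hab => by
        by_contra hne
        refine h ⟨(a, b), mem_offDiag.2 ⟨ha, hb, hne⟩, ?_⟩
        rw [Fintype.mem_piFinset]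
        intro i
        exact mem_filter.2 ⟨mem_univ _, hab i⟩
      omega
    have h2 : (univ : Finset (Fin s → U)) ⊆ B.offDiag.biUnion fun q => Fintype.piFinset
        (fun _ : Fin s => (univ : Finset U).filter fun v => p q.1 v = p q.2 v) := by
      intro u _
      obtain ⟨q, hq, h⟩ := hu u
      exact mem_biUnion.2 ⟨q, hq, h⟩
    have h3 := (card_le_card h2).trans card_biUnion_le
    rw [card_univ, Fintype.card_fun, Fintype.card_fin] at h3
    have h4 : ∀ q ∈ B.offDiag, (((Fintype.piFinset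
        (fun _ : Fin s => (univ : Finset U).filter fun v => p q.1 v = p q.2 v)).card : ℕ) : ℝ) ≤
        ((1 - δ) * Fintype.card U) ^ s := by
      intro q hq
      rw [Fintype.card_piFinset_const, Nat.cast_pow]
      refine pow_le_pow_left₀ (Nat.cast_nonneg _) ?_ s
      rw [mem_offDiag] at hq
      have h5 := hA q.1 (hBA hq.1) q.2 (hBA hq.2.1) hq.2.2
      have h6 := card_filter_add_card_filter_not (s := (univ : Finset U)) (fun v => p q.1 v = p q.2 v)
      rw [card_univ] at h6
      have h7 : (((univ : Finset U).filter fun v => p q.1 v = p q.2 v).card : ℝ) +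
          (((univ : Finset U).filter fun v => ¬ p q.1 v = p q.2 v).card : ℝ) = Fintype.card U := by
        exact_mod_cast h6
      have h8 : (((univ : Finset U).filter fun v => ¬ p q.1 v = p q.2 v).card : ℝ) =
        (((univ : Finset U).filter fun v => p q.1 v ≠ p q.2 v).card : ℝ) := rfl
      linarith
    have h5 : (Fintype.card U : ℝ) ^ s ≤ ∑ q ∈ B.offDiag, ((1 - δ) * Fintype.card U) ^ s := by
      refine le_trans ?_ (sum_le_sum h4)
      rw [← Nat.cast_sum, ← Nat.cast_pow]
      exact_mod_cast h3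
    rw [sum_const, nsmul_eq_mul, mul_pow] at h5
    have h6 : ((B.offDiag.card : ℕ) : ℝ) ≤ ((M + 1 : ℕ) : ℝ) ^ 2 := by
      have : B.offDiag.card ≤ (M + 1) ^ 2 := by
        rw [offDiag_card, hB, sq]
        exact Nat.sub_le _ _
      exact_mod_cast this
    have h7 : (0 : ℝ) ≤ (1 - δ) ^ s := pow_nonneg (by linarith) _
    have h8 : (0 : ℝ) < (Fintype.card U : ℝ) ^ s := by positivity
    have h9 : (B.offDiag.card : ℝ) * ((1 - δ) ^ s * (Fintype.card U : ℝ) ^ s) < 1 * (Fintype.card U : ℝ) ^ s := by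
      rw [← mul_assoc]
      refine mul_lt_mul_of_pos_right (lt_of_le_of_lt ?_ hM) h8
      exact mul_le_mul_of_nonneg_right h6 h7
    linarith
  set P : ℕ → Prop := fun k => ∃ A : Finset ι, Sep A ∧ A.card = k with hP
  have hP0 : P 0 := ⟨∅, by simp [hSep], rfl⟩
  have hPM : ∀ k, P k → k ≤ M := by
    rintro k ⟨A, hA, rfl⟩
    exact hsmall A hA
  obtain ⟨A, hA, hAk⟩ := Nat.findGreatest_spec (P := P) (Nat.zero_le M) hP0
  refine ⟨A, hsmall A hA, fun x => ?_⟩
  by_contra hcon
  push Not at hcon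
  have hxA : x ∉ A := by
    intro hx
    have := hcon x hx
    simp only [ne_eq, not_true_eq_false, filter_false, card_empty, Nat.cast_zero] at this
    nlinarith
  have h1 : P (A.card + 1) := by
    refine ⟨insert x A, ?_, card_insert_of_notMem hxA⟩
    intro a ha b hb hab
    rcases mem_insert.1 ha with ha' | ha'
    · rcases mem_insert.1 hb with hb' | hb'
      · exact absurd (ha'.trans hb'.symm) hab
      · rw [ha']
        exact hcon b hb'
    · rcases mem_insert.1 hb with hb' | hb'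
      · rw [hb']
        have := hcon a ha'
        refine this.trans_le (le_of_eq ?_)
        congr 2
        ext v
        simp only [mem_filter, mem_univ, true_and]
        exact ne_comm
      · exact hA a ha' b hb' hab
  have h2 : A.card + 1 ≤ Nat.findGreatest P M := Nat.le_findGreatest (hPM _ h1) h1
  omega

/-- growth condition -/
def Slow (g : ℕ → ℕ) : Prop := ∀ η : ℝ, 0 < η → η ≤ 1 → ∃ s, ((g s + 1 : ℕ) : ℝ) ^ 2 * (1 - η) ^ s < 1

lemma slow_of_poly {g : ℕ → ℕ} (C d : ℕ) (hg : ∀ s, g s ≤ C * (s + 1) ^ d) : Slow g := by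
  intro η hη hη1
  set r : ℝ := max (1 - η) (1 / 2) with hr
  have hr0 : 0 < r := lt_of_lt_of_le (by norm_num) (le_max_right _ _)
  have hr1 : r < 1 := max_lt (by linarith) (by norm_num)
  have h1 := tendsto_pow_const_mul_const_pow_of_abs_lt_one (2 * d) (show |r| < 1 by rwa [abs_of_pos hr0])
  have h2 : ∀ᶠ n : ℕ in atTop, (n : ℝ) ^ (2 * d) * r ^ n < r / (C + 1) ^ 2 :=
    h1.eventually_lt_const (by positivity)
  obtain ⟨n, hn, hn1⟩ := (h2.and (eventually_ge_atTop 1)).exists
  obtain ⟨s, rfl⟩ : ∃ s, n = s + 1 := ⟨n - 1, by omega⟩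
  refine ⟨s, ?_⟩
  have h3 : ((g s + 1 : ℕ) : ℝ) ≤ (C + 1) * ((s + 1 : ℕ) : ℝ) ^ d := by
    have h4 : (g s : ℝ) ≤ C * ((s + 1 : ℕ) : ℝ) ^ d := by exact_mod_cast hg s
    have h5 : (1 : ℝ) ≤ ((s + 1 : ℕ) : ℝ) ^ d := one_le_pow₀ (by exact_mod_cast Nat.le_add_left 1 s)
    push_cast at h4 h5 ⊢
    linarith
  have h4 : (1 - η) ^ s ≤ r ^ s := pow_le_pow_left₀ (by linarith) (le_max_left _ _) s
  calc ((g s + 1 : ℕ) : ℝ) ^ 2 * (1 - η) ^ s ≤ ((C + 1) * ((s + 1 : ℕ) : ℝ) ^ d) ^ 2 * r ^ s :=
        mul_le_mul (pow_le_pow_left₀ (Nat.cast_nonneg _) h3 2) h4 (pow_nonneg (by linarith) _) (by positivity)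
    _ = (C + 1) ^ 2 / r * (((s + 1 : ℕ) : ℝ) ^ (2 * d) * r ^ (s + 1)) := by
        rw [pow_succ r s, mul_comm 2 d, pow_mul]
        field_simp
    _ < (C + 1) ^ 2 / r * (r / (C + 1) ^ 2) := mul_lt_mul_of_pos_left hn (by positivity)
    _ = 1 := by field_simp

/-- few patterns along the orbits in each fibre give coverings of the fibres -/
theorem cov_of_pat {X Y : Type} {T : X → X} {π : X → Y} {S : Y → Y} (hπT : ∀ x, π (T x) = S (π x)) {F : X → ℂ} {C : ℝ}
    (hC : ∀ x, ‖F x‖ ≤ C)
    (h : ∀ ε : ℝ, 0 < ε → ∃ (J : Type) (_ : Fintype J) (_ : Nonempty J) (p : X → J → Bool) (g : ℕ → ℕ), Slow g ∧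
      (∀ x x', π x = π x' → (∀ j, p x j = p x' j) → ‖F x - F x'‖ ≤ ε) ∧
      ∀ (y : Y) (s : ℕ) (u : Fin s → ℕ × J) (B : Finset X), (∀ a ∈ B, π a = y) →
        (∀ a ∈ B, ∀ b ∈ B, (∀ i, p (T^[(u i).1] a) (u i).2 = p (T^[(u i).1] b) (u i).2) → a = b) →
        B.card ≤ g s) (δ : ℝ) (hδ : 0 < δ) :
    ∃ H : ℕ, 1 ≤ H ∧ ∀ y, CovAt T π F H δ (δ * H) y := by
  classical
  rcases isEmpty_or_nonempty X with hX | hX
  · exact ⟨1, le_rfl, fun y => ⟨∅, by simpa using hδ.le, fun x => (hX.false x).elim⟩⟩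
  have hC0 : 0 ≤ C := (norm_nonneg _).trans (hC (Classical.arbitrary X))
  have hπn : ∀ n x, π (T^[n] x) = S^[n] (π x) := by
    intro n x
    induction n with
    | zero => rfl
    | succ n ih => rw [Function.iterate_succ_apply', hπT, ih, Function.iterate_succ_apply']
  obtain ⟨J, _, _, p, g, hg, hp, hB⟩ := h (δ / 2) (by positivity)
  set k : ℕ := Fintype.card J with hk
  have hk0 : (0 : ℝ) < k := by exact_mod_cast Fintype.card_pos
  set η : ℝ := min 1 (δ / (4 * (C + 1) * k)) with hη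
  have hη0 : 0 < η := lt_min one_pos (by positivity)
  obtain ⟨s, hs⟩ := hg η hη0 (min_le_left _ _)
  obtain ⟨H, hH⟩ := exists_nat_ge ((g s : ℝ) / δ)
  refine ⟨H + 1, by omega, fun y => ?_⟩
  set H' : ℕ := H + 1 with hH'
  have _ : Nonempty (Fin H') := ⟨⟨0, by omega⟩⟩
  obtain ⟨A, hA, hA2⟩ := sample (ι := {x // π x = y}) (U := Fin H' × J) (fun x v => p (T^[v.1] x.1) v.2) s (g s) hη0
    (min_le_left _ _) hs (by
      intro u B hB1
      have h1 := hB y s (fun i => ((u i).1, (u i).2)) (B.map (Function.Embedding.subtype _)) (by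
        intro a ha
        obtain ⟨b, _, rfl⟩ := mem_map.1 ha
        exact b.2) (by
        intro a ha b hb hab
        obtain ⟨a', ha', rfl⟩ := mem_map.1 ha
        obtain ⟨b', hb', rfl⟩ := mem_map.1 hb
        exact congrArg _ (hB1 a' ha' b' hb' hab))
      rwa [card_map] at h1)
  refine ⟨A.map (Function.Embedding.subtype _), ?_, ?_⟩
  · rw [card_map]
    have h1 : (A.card : ℝ) ≤ g s := by exact_mod_cast hA
    rw [div_le_iff₀ hδ] at hH
    have : (H' : ℝ) = H + 1 := by rw [hH']; push_cast; ring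
    rw [this]
    nlinarith
  · intro x hx
    obtain ⟨a, ha, h1⟩ := hA2 ⟨x, hx⟩
    refine ⟨a, mem_map.2 ⟨a, ha, rfl⟩, ?_⟩
    set bad : Finset ℕ := (range H').filter fun m => ∃ j, p (T^[m] x) j ≠ p (T^[m] a.1) j with hbad
    have h2 : bad.card ≤ ((univ : Finset (Fin H' × J)).filter fun v =>
        p (T^[v.1] x) v.2 ≠ p (T^[v.1] a.1) v.2).card := by
      have h3 : bad ⊆ ((univ : Finset (Fin H' × J)).filter fun v =>
        p (T^[v.1] x) v.2 ≠ p (T^[v.1] a.1) v.2).image fun v => (v.1 : ℕ) := by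
        intro m hm
        rw [hbad, mem_filter, mem_range] at hm
        obtain ⟨j, hj⟩ := hm.2
        refine mem_image.2 ⟨(⟨m, hm.1⟩, j), ?_, rfl⟩
        rw [mem_filter]
        exact ⟨mem_univ _, hj⟩
      exact (card_le_card h3).trans card_image_le
    have h4 : (bad.card : ℝ) ≤ η * (H' * k) := by
      have h5 : (bad.card : ℝ) ≤ (((univ : Finset (Fin H' × J)).filter fun v =>
        p (T^[v.1] x) v.2 ≠ p (T^[v.1] a.1) v.2).card : ℝ) := by exact_mod_cast h2
      refine h5.trans (h1.trans (le_of_eq ?_))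
      rw [Fintype.card_prod, Fintype.card_fin]
      push_cast
      rfl
    have h6 : ∀ m ∈ range H', ‖F (T^[m] x) - F (T^[m] a.1)‖ ≤ δ / 2 + if m ∈ bad then 2 * C else 0 := by
      intro m hm
      by_cases hmb : m ∈ bad
      · rw [if_pos hmb]
        have h7 := norm_sub_le (F (T^[m] x)) (F (T^[m] a.1))
        have h8 := hC (T^[m] x)
        have h9 := hC (T^[m] a.1)
        linarith
      · rw [if_neg hmb, add_zero]
        refine hp _ _ ?_ ?_
        · rw [hπn, hπn, hx]
          exact congrArg _ a.2.symm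
        · intro j
          by_contra hj
          exact hmb (mem_filter.2 ⟨hm, j, hj⟩)
    have h7 : ∑ m ∈ range H', (if m ∈ bad then 2 * C else 0) = bad.card * (2 * C) := by
      rw [← sum_filter, sum_const, nsmul_eq_mul]
      congr 2
      congr 1
      ext m
      simp only [mem_filter, hbad]
      tauto
    have h8 : η * k * (2 * C) ≤ δ / 2 := by
      have h9 : η ≤ δ / (4 * (C + 1) * k) := min_le_right _ _
      have h10 : η * k * (2 * C) ≤ δ / (4 * (C + 1) * k) * k * (2 * C) := by gcongr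
      refine h10.trans ?_
      have h11 : δ / (4 * (C + 1) * k) * k * (2 * C) = δ / 2 * (C / (C + 1)) := by
        field_simp
        ring
      rw [h11]
      have h12 : C / (C + 1) ≤ 1 := by
        rw [div_le_one (by positivity)]
        linarith
      nlinarith
    calc ∑ m ∈ range H', ‖F (T^[m] x) - F (T^[m] a.1)‖
        ≤ ∑ m ∈ range H', (δ / 2 + if m ∈ bad then 2 * C else 0) := sum_le_sum h6
      _ = H' * (δ / 2) + bad.card * (2 * C) := by
          rw [sum_add_distrib, h7, sum_const, card_range, nsmul_eq_mul]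
      _ ≤ H' * (δ / 2) + η * (H' * k) * (2 * C) := by gcongr
      _ = H' * (δ / 2) + H' * (η * k * (2 * C)) := by ring
      _ ≤ H' * (δ / 2) + H' * (δ / 2) := by gcongr
      _ = δ * H' := by ring

end

end Pool.Agent.R296.VC
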