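import Pool.Agent.R296.VC.Quad

set_option autoImplicit false

/-! # Windows of sequences which are covered, fibre by fibre, by few balls in the mean -/

namespace Pool.Agent.R296.VC

open Finset Filter Topology
open Pool.Agent.Helper602.MK (ee)
open Pool.Agent.Helper602.MK.N_J1c (c_ee_add c_ee_int c_norm_ee)
open Pool.Agent.Y842.PH Pool.Agent.Y842.CX Pool.Agent.R296.RE

noncomputable section

section

variable {X Y : Type*} [TopologicalSpace Y]

theorem win1 {f : ℕ → ℤ} (hb : ∀ n, |f n| ≤ 1) {E : Set ℕ} (hE : Kf f E) {S : Y → Y} {𝒴 : Set Y}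
    (hAP : ∀ c : C(Y, ℂ), UAP {b | ∃ y ∈ 𝒴, b = fun n => c (S^[n] y)}) {T : X → X} {π : X → Y}
    (hπ : ∀ n x, π (T^[n] x) = S^[n] (π x)) {F : X → ℂ} {ι : Type*} (s : Finset ι) (w : ι → ℕ → C(Y, ℂ)) (H : ℕ)
    (hH : 1 ≤ H) {t δ : ℝ} (ht : 0 < t) (hw : ∀ y, ∑ i ∈ s, ∑ m ∈ range H, ‖w i m y‖ ^ 2 ≤ t ^ 2 * H)
    (hc : ∀ x, ∃ c : ι → ℂ, ∑ i ∈ s, ‖c i‖ ^ 2 ≤ H ∧
      ∑ m ∈ range H, ‖F (T^[m] x) - ∑ i ∈ s, c i * w i m (π x)‖ ≤ δ * H) :
    ∃ N₀ : ℕ, ∀ N ≥ N₀, N ∉ E → ∀ x, π x ∈ 𝒴 → ∀ θ : ℝ,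
      ∑ n ∈ range N, ‖∑ m ∈ range H, tw f θ (n + m) * F (T^[n + m] x)‖ ≤ (δ + 2 * t) * (H * N) := by
  have hH0 : (0 : ℝ) < H := by exact_mod_cast hH
  obtain ⟨N₀, h1⟩ := quad hb hE hAP s w H (t ^ 2 * H) (by positivity)
  refine ⟨N₀, fun N hN hNE x hx θ => ?_⟩
  have h2 := h1 N hN hNE (π x) hx θ
  set g : ι → ℕ → ℂ := fun i n => ∑ m ∈ range H, tw f θ (n + m) * w i m (S^[n] (π x)) with hg
  have h3 : ∑ n ∈ range N, ∑ i ∈ s, ‖g i n‖ ^ 2 ≤ 2 * t ^ 2 * (H * N) := by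
    refine h2.trans ?_
    have h4 : ∑ n ∈ range N, ∑ i ∈ s, ∑ m ∈ range H, ‖w i m (S^[n] (π x))‖ ^ 2 ≤ ∑ _n ∈ range N, t ^ 2 * H :=
      sum_le_sum fun n _ => hw _
    rw [sum_const, card_range, nsmul_eq_mul] at h4
    linarith
  have hone : ∀ n, ‖∑ m ∈ range H, tw f θ (n + m) * F (T^[n + m] x)‖ ≤
      δ * H + t / 2 * H + 1 / (2 * t) * ∑ i ∈ s, ‖g i n‖ ^ 2 := by
    intro n
    obtain ⟨c, hc1, hc2⟩ := hc (T^[n] x)
    rw [hπ] at hc2
    have e1 : ∑ m ∈ range H, tw f θ (n + m) * F (T^[n + m] x) =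
        ∑ m ∈ range H, tw f θ (n + m) * (F (T^[m] (T^[n] x)) - ∑ i ∈ s, c i * w i m (S^[n] (π x))) +
        ∑ i ∈ s, c i * g i n := by
      have e2 : ∑ i ∈ s, c i * g i n = ∑ m ∈ range H, tw f θ (n + m) * ∑ i ∈ s, c i * w i m (S^[n] (π x)) := by
        simp only [hg, mul_sum]
        rw [sum_comm]
        refine sum_congr rfl fun m _ => sum_congr rfl fun i _ => ?_
        ring
      rw [e2, ← sum_add_distrib]
      refine sum_congr rfl fun m _ => ?_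
      have e3 : T^[n + m] x = T^[m] (T^[n] x) := by
        rw [← Function.iterate_add_apply, add_comm m n]
      rw [e3]
      ring
    rw [e1]
    refine (norm_add_le _ _).trans ?_
    rw [add_assoc]
    refine add_le_add ?_ ?_
    · refine (norm_sum_le _ _).trans (le_trans (sum_le_sum fun m _ => ?_) hc2)
      rw [norm_mul]
      calc ‖tw f θ (n + m)‖ * _ ≤ 1 * _ := mul_le_mul_of_nonneg_right (norm_tw hb θ _) (norm_nonneg _)
        _ = _ := one_mul _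
    · refine (norm_sum_le _ _).trans ?_
      calc ∑ i ∈ s, ‖c i * g i n‖ ≤ ∑ i ∈ s, (t / 2 * ‖c i‖ ^ 2 + 1 / (2 * t) * ‖g i n‖ ^ 2) := by
            refine sum_le_sum fun i _ => ?_
            rw [norm_mul]
            have h5 : 0 ≤ (t * ‖c i‖ - ‖g i n‖) ^ 2 / (2 * t) := by positivity
            have h6 : (t * ‖c i‖ - ‖g i n‖) ^ 2 / (2 * t) =
                t / 2 * ‖c i‖ ^ 2 + 1 / (2 * t) * ‖g i n‖ ^ 2 - ‖c i‖ * ‖g i n‖ := by
              field_simp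
              ring
            linarith
        _ = t / 2 * ∑ i ∈ s, ‖c i‖ ^ 2 + 1 / (2 * t) * ∑ i ∈ s, ‖g i n‖ ^ 2 := by
            rw [sum_add_distrib, ← mul_sum, ← mul_sum]
        _ ≤ _ := add_le_add (mul_le_mul_of_nonneg_left hc1 (by positivity)) le_rfl
  calc ∑ n ∈ range N, ‖∑ m ∈ range H, tw f θ (n + m) * F (T^[n + m] x)‖
      ≤ ∑ n ∈ range N, (δ * H + t / 2 * H + 1 / (2 * t) * ∑ i ∈ s, ‖g i n‖ ^ 2) := sum_le_sum fun n _ => hone n
    _ = N * (δ * H + t / 2 * H) + 1 / (2 * t) * ∑ n ∈ range N, ∑ i ∈ s, ‖g i n‖ ^ 2 := by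
        rw [sum_add_distrib, sum_const, card_range, nsmul_eq_mul, ← mul_sum]
    _ ≤ N * (δ * H + t / 2 * H) + 1 / (2 * t) * (2 * t ^ 2 * (H * N)) :=
        add_le_add le_rfl (mul_le_mul_of_nonneg_left h3 (by positivity))
    _ = (δ + t / 2 + t) * (H * N) := by
        field_simp
    _ ≤ (δ + 2 * t) * (H * N) := by
        apply mul_le_mul_of_nonneg_right _ (by positivity)
        linarith

end

/-- long windows from short windows -/
theorem split_win (b : ℕ → ℂ) {C : ℝ} (hb : ∀ n, ‖b n‖ ≤ C) (N H H₁ : ℕ) (hH : 1 ≤ H₁) :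
    ∑ n ∈ range N, ‖∑ m ∈ range H, b (n + m)‖ ≤
      H / H₁ * ∑ n ∈ range N, ‖∑ j ∈ range H₁, b (n + j)‖ + H ^ 2 * C + 2 * H₁ * C * N := by
  have hC : 0 ≤ C := (norm_nonneg _).trans (hb 0)
  have hH0 : (0 : ℝ) < H₁ := by exact_mod_cast hH
  set g : ℕ → ℝ := fun n => ‖∑ j ∈ range H₁, b (n + j)‖ with hg
  have hg0 : ∀ n, 0 ≤ g n := fun n => norm_nonneg _
  have hg1 : ∀ n, g n ≤ H₁ * C := by
    intro n
    refine (norm_sum_le _ _).trans ((sum_le_sum fun m _ => hb _).trans ?_)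
    rw [sum_const, card_range, nsmul_eq_mul]
  have h1 : ∀ n, ‖∑ m ∈ range H, b (n + m)‖ ≤ 1 / H₁ * ∑ m ∈ range H, g (n + m) + 2 * H₁ * C := by
    intro n
    have h2 := long_sum (fun m => b (n + m)) (fun m => hb _) H H₁ hH
    refine h2.trans (le_of_eq ?_)
    congr 2
    refine sum_congr rfl fun m _ => ?_
    rw [hg]
    simp only [add_assoc]
  have h2 : ∀ m, ∑ n ∈ range N, g (n + m) ≤ ∑ n ∈ range N, g n + m * (H₁ * C) := by
    intro m
    induction m with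
    | zero => simp
    | succ m ih =>
      have e1 : ∑ n ∈ range N, g (n + (m + 1)) = ∑ n ∈ range N, g (n + m) + g (N + m) - g m := by
        have e2 := sum_range_succ (fun n => g (n + m)) N
        have e3 := sum_range_succ' (fun n => g (n + m)) N
        have e4 : ∑ n ∈ range N, g (n + (m + 1)) = ∑ n ∈ range N, g (n + 1 + m) :=
          sum_congr rfl fun n _ => by congr 1; ring
        rw [e4]
        rw [e2] at e3
        rw [zero_add] at e3
        linarith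
      rw [e1]
      have h3 := hg1 (N + m)
      have h4 := hg0 m
      push_cast
      linarith
  calc ∑ n ∈ range N, ‖∑ m ∈ range H, b (n + m)‖
      ≤ ∑ n ∈ range N, (1 / H₁ * ∑ m ∈ range H, g (n + m) + 2 * H₁ * C) := sum_le_sum fun n _ => h1 n
    _ = 1 / H₁ * ∑ m ∈ range H, ∑ n ∈ range N, g (n + m) + N * (2 * H₁ * C) := by
        rw [sum_add_distrib, ← mul_sum, sum_comm, sum_const, card_range, nsmul_eq_mul]
    _ ≤ 1 / H₁ * ∑ _m ∈ range H, (∑ n ∈ range N, g n + H * (H₁ * C)) + N * (2 * H₁ * C) := by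
        refine add_le_add (mul_le_mul_of_nonneg_left (sum_le_sum fun m hm => (h2 m).trans ?_) (by positivity)) le_rfl
        refine add_le_add le_rfl (mul_le_mul_of_nonneg_right ?_ (by positivity))
        exact_mod_cast (mem_range.1 hm).le
    _ = _ := by
        rw [sum_const, card_range, nsmul_eq_mul]
        field_simp

end

end Pool.Agent.R296.VC
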